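import Pool.Agent.H252.MD.Iface
import Pool.Graph.R_pool_sql_team_seeded_620a6dc7.H107_ZS.TRA
import Pool.Graph.R_pool_sql_team_seeded_620a6dc7.H107_ZS.TRANK

/-!
# RG: the rank gap on the blocks
-/

set_option autoImplicit false

namespace Pool.Agent.H747.MDRG

open Filter Topology Matrix
open Pool.Agent.H107ZS Pool.Agent.H327R4.Pure Pool.Agent.H252.MD
open scoped CStarAlgebra ComplexOrder

theorem zt_add (i j : ℤ) : zt (i + j) = zt i * zt j := rfl

theorem zt_zero : zt 0 = 1 := rfl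

theorem zt_inj {i j : ℤ} (h : zt i = zt j) : i = j := Multiplicative.ofAdd.injective h

theorem mem_Kb {R : ℕ} {g : Zm} : g ∈ Kb R ↔ ∃ i : ℤ, (-(R : ℤ) ≤ i ∧ i ≤ R) ∧ zt i = g := by
  unfold Kb
  rw [Finset.mem_image]
  simp only [Finset.mem_Icc]

theorem prod_mem {R : ℕ} : ∀ (w : List Zm), (∀ g ∈ w, g ∈ Kb R) →
    ∃ j : ℤ, w.prod = zt j ∧ -((w.length * R : ℕ) : ℤ) ≤ j ∧ j ≤ ((w.length * R : ℕ) : ℤ) := by
  intro w
  induction w with
  | nil =>
    intro _
    exact ⟨0, rfl, by simp, by simp⟩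
  | cons g w ih =>
    intro h
    obtain ⟨j, h1, h2, h3⟩ := ih (fun g' hg' => h g' (List.mem_cons_of_mem _ hg'))
    obtain ⟨i, ⟨h4, h5⟩, h6⟩ := mem_Kb.1 (h g List.mem_cons_self)
    refine ⟨i + j, ?_, ?_, ?_⟩
    · rw [List.prod_cons, h1, ← h6, zt_add]
    · rw [List.length_cons, Nat.add_mul, one_mul]
      push_cast at h2 ⊢
      linarith
    · rw [List.length_cons, Nat.add_mul, one_mul]
      push_cast at h3 ⊢
      linarith

theorem trace_proj {N : Type*} [Fintype N] [DecidableEq N] (p : Matrix N N ℂ)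
    (hp : IsStarProjection p) : p.trace.re = p.rank := by
  have h1 : IsIdempotentElem (Matrix.toLin' p) := by
    show Matrix.toLin' p * Matrix.toLin' p = Matrix.toLin' p
    rw [Module.End.mul_eq_comp, ← Matrix.toLin'_mul, hp.isIdempotentElem.eq]
  have h2 := (LinearMap.IsIdempotentElem.isProj_range _ h1).trace
  rw [Matrix.trace_toLin'_eq] at h2
  rw [h2]
  have h3 : p.rank = Module.finrank ℂ (LinearMap.range (Matrix.toLin' p)) := by
    rw [Matrix.rank]
    rfl
  rw [h3, Complex.natCast_re]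

section

variable {X : Type} [TopologicalSpace X] [MulAction Zm X]

/-- the bad points -/
noncomputable def bad (φ : C(X, ℝ)) (x : X) (Λ P : ℕ) : Finset ℕ :=
  open Classical in
  (Finset.range Λ).filter fun i : ℕ => ∃ c : ℕ, c ≤ Λ ∧ (c ≤ i + P ∧ i ≤ c + P) ∧
    φ (zt (c : ℤ) • x) ≠ 0

theorem count {φ : C(X, ℝ)} {N L : ℕ} (hφ : Mark φ N L) (x : X) {Λ : ℕ} (P : ℕ)
    (hΛ : N + 1 ≤ Λ) : (bad φ x Λ P).card * (N + 1) ≤ (2 * P + 1) * (2 * Λ) := by
  classical
  set C : Finset ℕ := (Finset.range (Λ + 1)).filter fun c => φ (zt (c : ℤ) • x) ≠ 0 with hC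
  have hCc : C.card ≤ Λ / (N + 1) + 1 := by
    rw [← Finset.card_range (Λ / (N + 1) + 1)]
    refine Finset.card_le_card_of_injOn (fun c => c / (N + 1)) ?_ ?_
    · intro c hc
      rw [Finset.mem_coe, hC, Finset.mem_filter, Finset.mem_range] at hc
      rw [Finset.mem_coe, Finset.mem_range]
      have := Nat.div_le_div_right (c := N + 1) (Nat.lt_succ_iff.1 hc.1)
      exact Nat.lt_succ_iff.2 this
    · have key : ∀ c ∈ C, ∀ c' ∈ C, c < c' → c / (N + 1) ≠ c' / (N + 1) := by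
        intro c hc c' hc' hlt he
        rw [hC, Finset.mem_filter] at hc hc'
        have h1 : c' - c ≤ N := by
          have e1 := Nat.div_add_mod c (N + 1)
          have e2 := Nat.div_add_mod c' (N + 1)
          have e3 : c' % (N + 1) < N + 1 := Nat.mod_lt c' (Nat.succ_pos N)
          have e2' : (N + 1) * (c / (N + 1)) + c' % (N + 1) = c' := by
            have : c / (N + 1) = c' / (N + 1) := he
            rw [this]
            exact e2
          generalize (N + 1) * (c / (N + 1)) = y at e1 e2'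
          omega
        have h2 := hφ.sep (zt (c : ℤ) • x) (c' - c) (by omega) h1 hc.2
        rw [← mul_smul, ← zt_add] at h2
        have h3 : (((c' - c : ℕ) : ℤ) + (c : ℤ)) = (c' : ℤ) := by omega
        rw [h3] at h2
        exact hc'.2 h2
      intro c hc c' hc' he
      by_contra hne
      rcases lt_or_gt_of_ne hne with h | h
      · exact key c hc c' hc' h he
      · exact key c' hc' c hc h he.symm
  have hsub : bad φ x Λ P ⊆ C.biUnion fun c => Finset.Icc (c - P) (c + P) := by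
    intro i hi
    unfold bad at hi
    rw [Finset.mem_filter] at hi
    obtain ⟨hi, c, hc, ⟨h1, h2⟩, h3⟩ := hi
    rw [Finset.mem_biUnion]
    refine ⟨c, ?_, ?_⟩
    · rw [hC, Finset.mem_filter, Finset.mem_range]
      exact ⟨Nat.lt_succ_iff.2 hc, h3⟩
    · rw [Finset.mem_Icc]
      omega
  have h1 : (bad φ x Λ P).card ≤ C.card * (2 * P + 1) := by
    refine (Finset.card_le_card hsub).trans (Finset.card_biUnion_le_card_mul _ _ _ ?_)
    intro c _
    rw [Nat.card_Icc]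
    omega
  have h2 : (Λ / (N + 1) + 1) * (N + 1) ≤ 2 * Λ := by
    have := Nat.div_mul_le_self Λ (N + 1)
    rw [Nat.add_mul, one_mul]
    omega
  calc (bad φ x Λ P).card * (N + 1) ≤ (C.card * (2 * P + 1)) * (N + 1) :=
        Nat.mul_le_mul_right _ h1
    _ ≤ ((Λ / (N + 1) + 1) * (2 * P + 1)) * (N + 1) :=
        Nat.mul_le_mul_right _ (Nat.mul_le_mul_right _ hCc)
    _ = (2 * P + 1) * ((Λ / (N + 1) + 1) * (N + 1)) := by ring
    _ ≤ (2 * P + 1) * (2 * Λ) := Nat.mul_le_mul_left _ h2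

theorem mem_bad {φ : C(X, ℝ)} {x : X} {Λ P i : ℕ} (hi : i < Λ) (h0 : φ x ≠ 0)
    (h1 : φ (zt (Λ : ℤ) • x) ≠ 0) (d : ℤ) (hd : |d - i| ≤ P)
    (h : d < 0 ∨ (Λ : ℤ) ≤ d ∨ φ (zt d • x) ≠ 0) : i ∈ bad φ x Λ P := by
  classical
  unfold bad
  rw [Finset.mem_filter, Finset.mem_range]
  refine ⟨hi, ?_⟩
  rw [abs_le] at hd
  by_cases h2 : d < 0
  · refine ⟨0, Nat.zero_le _, by omega, ?_⟩
    rw [Nat.cast_zero, zt_zero, one_smul]
    exact h0
  by_cases h3 : (Λ : ℤ) ≤ d
  · exact ⟨Λ, le_rfl, by omega, h1⟩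
  have h4 : φ (zt d • x) ≠ 0 := by tauto
  refine ⟨d.toNat, by omega, by omega, ?_⟩
  rw [Int.toNat_of_nonneg (not_lt.1 h2)]
  exact h4

end

section

variable {X : Type} [TopologicalSpace X] [MulAction Zm X] [ContinuousConstSMul Zm X]

theorem gam_apply (φ : C(X, ℝ)) (R : ℕ) (y : X) :
    gam φ R y = 1 - ∑ i ∈ Finset.Icc (-(R : ℤ)) R, φ (zt i • y) := by
  unfold gam
  rw [ContinuousMap.sub_apply, ContinuousMap.sum_apply, ContinuousMap.one_apply]
  rfl

theorem gam_ne {φ : C(X, ℝ)} {R : ℕ} {y : X} (h : gam φ R y ≠ 1) :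
    ∃ m : ℤ, |m| ≤ R ∧ φ (zt m • y) ≠ 0 := by
  by_contra hc
  push Not at hc
  apply h
  rw [gam_apply, Finset.sum_eq_zero, sub_zero]
  intro m hm
  rw [Finset.mem_Icc] at hm
  exact hc m (abs_le.2 hm)

end

theorem s_RG : S_RG := by
  classical
  intro hSPC X _ _ _ _ B _ _ _ n ι u e E hE a b ε r δ γ N₀ ha hb hε hδ hγ hgap
  obtain ⟨κ, δ', C, τ, Nw, hκ, hκδ, hκε, hC, hτ, hR⟩ := t_RANK.{0} t_RA t_RB Zm X B n ι u e E hE
    a b ε δ (γ / 2) ha hb hε hδ (by positivity)
  refine ⟨κ, δ', C, hκ, hκδ, hκε, hC, ?_⟩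
  intro a' b' R ha' hb' hPa hPb hna hnb
  set P : ℕ := Nw * R + R with hP
  obtain ⟨M1, hM1⟩ := exists_nat_ge (((2 * P + 1) * 2 : ℝ) / τ)
  obtain ⟨M2, hM2⟩ := exists_nat_ge ((n * ((2 * P + 1) * 2) : ℝ) / (γ / 2))
  refine ⟨max (max N₀ (2 * R)) (max M1 M2), ?_⟩
  intro N φ L hN hφ x Λ hΛ0 hφ0 hφΛ
  have hN0 : N₀ ≤ N := ((le_max_left _ _).trans (le_max_left _ _)).trans hN
  have hNR : 2 * R ≤ N := ((le_max_right _ _).trans (le_max_left _ _)).trans hN
  have hNM1 : M1 ≤ N := ((le_max_left _ _).trans (le_max_right _ _)).trans hN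
  have hNM2 : M2 ≤ N := ((le_max_right _ _).trans (le_max_right _ _)).trans hN
  have hφ0' : φ x ≠ 0 := by rw [hφ0]; exact one_ne_zero
  have hφΛ' : φ (zt (Λ : ℤ) • x) ≠ 0 := by rw [hφΛ]; exact one_ne_zero
  have hNΛ : N + 1 ≤ Λ := by
    by_contra hlt
    exact hφΛ' (hφ.sep x Λ hΛ0 (by omega) hφ0')
  obtain ⟨hS1, hS2⟩ := hSPC X B n ι u e E hE
  obtain ⟨hγ01, -⟩ := hS2 φ N L R hφ hNR
  -- the counting
  have hcnt := count hφ x P hNΛ
  have hcntR : ((bad φ x Λ P).card : ℝ) * (N + 1) ≤ (2 * P + 1) * 2 * Λ := by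
    have : (((bad φ x Λ P).card * (N + 1) : ℕ) : ℝ) ≤ (((2 * P + 1) * (2 * Λ) : ℕ) : ℝ) := by
      exact_mod_cast hcnt
    push_cast at this
    linarith
  have hN1 : (0 : ℝ) < N + 1 := by positivity
  have hb1 : ((bad φ x Λ P).card : ℝ) ≤ τ * Λ := by
    have h1 : ((2 * P + 1) * 2 : ℝ) ≤ τ * (N + 1) := by
      rw [div_le_iff₀ hτ] at hM1
      have : (M1 : ℝ) ≤ N := by exact_mod_cast hNM1
      nlinarith
    have h2 : ((bad φ x Λ P).card : ℝ) * (N + 1) ≤ (τ * Λ) * (N + 1) := by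
      refine hcntR.trans ?_
      have : (0 : ℝ) ≤ Λ := by positivity
      nlinarith
    exact le_of_mul_le_mul_right h2 hN1
  have hb2 : (n : ℝ) * ((bad φ x Λ P).card : ℝ) ≤ (γ / 2) * Λ := by
    have h1 : ((n : ℝ) * ((2 * P + 1) * 2)) ≤ (γ / 2) * (N + 1) := by
      rw [div_le_iff₀ (by positivity)] at hM2
      have : (M2 : ℝ) ≤ N := by exact_mod_cast hNM2
      nlinarith
    have h2 : ((n : ℝ) * ((bad φ x Λ P).card : ℝ)) * (N + 1) ≤ ((γ / 2) * Λ) * (N + 1) := by
      have h3 : (n : ℝ) * (((bad φ x Λ P).card : ℝ) * (N + 1)) ≤ n * ((2 * P + 1) * 2 * Λ) :=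
        mul_le_mul_of_nonneg_left hcntR (by positivity)
      have : (0 : ℝ) ≤ Λ := by positivity
      nlinarith
    exact le_of_mul_le_mul_right h2 hN1
  -- the data
  set S : Finset Zm := (Finset.range Λ).image fun i : ℕ => zt (i : ℤ) with hSdef
  have hmemS : ∀ i : ℤ, zt i ∈ S ↔ 0 ≤ i ∧ i < Λ := by
    intro i
    rw [hSdef, Finset.mem_image]
    constructor
    · rintro ⟨m, hm, he⟩
      rw [Finset.mem_range] at hm
      have := zt_inj he
      omega
    · rintro ⟨h1, h2⟩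
      refine ⟨i.toNat, ?_, ?_⟩
      · rw [Finset.mem_range]; omega
      · rw [Int.toNat_of_nonneg h1]
  have hinj : Function.Injective fun i : ℕ => zt (i : ℤ) := by
    intro i j h
    have := zt_inj h
    exact_mod_cast this
  have hScard : S.card = Λ := by
    rw [hSdef, Finset.card_image_of_injective _ hinj, Finset.card_range]
  set χ : Zm → ℝ := fun z => if z ∈ S then gam φ R (z • x) else 0 with hχdef
  set T : Finset Zm := (Finset.range Λ \ bad φ x Λ P).image fun i : ℕ => zt (i : ℤ) with hTdef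
  have hTS : T ⊆ S := Finset.image_subset_image Finset.sdiff_subset
  have hTcard : (1 - τ) * (S.card : ℝ) ≤ T.card := by
    rw [hScard, hTdef, Finset.card_image_of_injective _ hinj]
    have h1 : Λ ≤ (Finset.range Λ \ bad φ x Λ P).card + (bad φ x Λ P).card := by
      have := Finset.card_le_card_sdiff_add_card (s := Finset.range Λ) (t := bad φ x Λ P)
      rwa [Finset.card_range] at this
    have h2 : (Λ : ℝ) ≤ ((Finset.range Λ \ bad φ x Λ P).card : ℝ) + ((bad φ x Λ P).card : ℝ) := by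
      exact_mod_cast h1
    linarith
  have hχ1 : ∀ i : ℕ, i < Λ → i ∉ bad φ x Λ P → ∀ j : ℤ, |j| ≤ (Nw * R : ℕ) →
      χ (zt (i + j)) = 1 := by
    intro i hi hib j hj
    by_contra hne
    apply hib
    by_cases hmem : zt (i + j) ∈ S
    · simp only [hχdef, if_pos hmem] at hne
      obtain ⟨m, hm, hm'⟩ := gam_ne hne
      rw [← mul_smul, ← zt_add] at hm'
      refine mem_bad hi hφ0' hφΛ' (m + (i + j)) ?_ (Or.inr (Or.inr hm'))
      rw [abs_le] at hj hm ⊢
      rw [hP]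
      push_cast at hj hm ⊢
      constructor <;> linarith [hj.1, hj.2, hm.1, hm.2]
    · rw [hmemS] at hmem
      refine mem_bad hi hφ0' hφΛ' (i + j) ?_ (by omega)
      rw [abs_le] at hj ⊢
      rw [hP]
      push_cast at hj ⊢
      have : (0 : ℤ) ≤ R := by positivity
      constructor <;> linarith [hj.1, hj.2]
  obtain ⟨p, q, hp, hq, hpp, hqq, hpq⟩ := hR a' b' (Kb R) ha' hb' hPa hPb hna hnb S T χ hTS
    (by
      intro s
      simp only [hχdef]
      split_ifs
      · exact hγ01 _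
      · exact ⟨le_rfl, zero_le_one⟩)
    (by
      intro s hs
      simp only [hχdef, if_neg hs])
    (by
      intro t ht w hw hwK
      obtain ⟨j, hj1, hj2, hj3⟩ := prod_mem w hwK
      rw [hTdef, Finset.mem_image] at ht
      obtain ⟨i, hi, rfl⟩ := ht
      rw [Finset.mem_sdiff, Finset.mem_range] at hi
      rw [hj1, ← zt_add, add_comm]
      have hle : w.length * R ≤ Nw * R := Nat.mul_le_mul_right _ hw
      exact hχ1 i hi.1 hi.2 j (abs_le.2 ⟨by omega, by omega⟩))
    hTcard x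
  -- reindexing
  let ψ : Fin Λ ≃ S := Equiv.ofBijective
    (fun i => ⟨zt ((i : ℕ) : ℤ), (hmemS _).2 ⟨by positivity, by exact_mod_cast i.2⟩⟩) (by
      constructor
      · intro i j h
        have h1 := congrArg Subtype.val h
        exact Fin.ext (hinj h1)
      · rintro ⟨z, hz⟩
        have hz' := hz
        rw [hSdef, Finset.mem_image] at hz'
        obtain ⟨i, hi, rfl⟩ := hz'
        exact ⟨⟨i, Finset.mem_range.1 hi⟩, rfl⟩)
  let Ψ : Fin n × Fin Λ ≃ Fin n × S := Equiv.prodCongr (Equiv.refl _) ψ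
  have hproj : ∀ p : Matrix (Fin n × S) (Fin n × S) ℂ, IsStarProjection p →
      IsStarProjection (p.submatrix Ψ Ψ) := by
    intro p hp
    constructor
    · show p.submatrix Ψ Ψ * p.submatrix Ψ Ψ = p.submatrix Ψ Ψ
      rw [Matrix.submatrix_mul_equiv, hp.isIdempotentElem.eq]
    · show (p.submatrix Ψ Ψ)ᴴ = p.submatrix Ψ Ψ
      rw [Matrix.conjTranspose_submatrix]
      have : pᴴ = p := hp.isSelfAdjoint
      rw [this]
  have hW : ∀ c : B, W u E (ι (toC (gam φ R)) * c * ι (toC (gam φ R))) Λ x =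
      (CmpX u E S χ x c).submatrix Ψ Ψ := by
    intro c
    ext k l
    rw [hS1, Matrix.submatrix_apply]
    unfold CmpX Cmp W
    have h1 : ∀ k : Fin n × Fin Λ, ((Ψ k).2 : Zm) = zt ((k.2 : ℕ) : ℤ) := fun k => rfl
    have h2 : ∀ k : Fin n × Fin Λ, (Ψ k).1 = k.1 := fun k => rfl
    have h3 : ∀ k : Fin n × Fin Λ, χ ((Ψ k).2 : Zm) = gam φ R (zt ((k.2 : ℕ) : ℤ) • x) := by
      intro k
      simp only [hχdef]
      rw [if_pos (Ψ k).2.2, h1]
    rw [h3, h3, h1, h1, h2, h2]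
    show ((gam φ R _ : ℝ) : ℂ) * _ * ((gam φ R _ : ℝ) : ℂ) = _
    ring
  refine ⟨p.submatrix Ψ Ψ, q.submatrix Ψ Ψ, hproj p hp, hproj q hq, ?_, ?_, ?_⟩
  · have := hpp.submatrix Ψ
    rw [hW]
    convert this using 1
    rw [Matrix.submatrix_sub, Matrix.submatrix_add, Matrix.submatrix_smul, Matrix.submatrix_smul]
    simp only [Pi.sub_apply, Pi.add_apply, Pi.smul_apply, Matrix.submatrix_one_equiv]
  · have := hqq.submatrix Ψ
    rw [hW]
    convert this using 1
    rw [Matrix.submatrix_sub, Matrix.submatrix_add, Matrix.submatrix_smul, Matrix.submatrix_smul]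
    simp only [Pi.sub_apply, Pi.add_apply, Pi.smul_apply, Matrix.submatrix_one_equiv]
  · rw [Matrix.rank_submatrix, Matrix.rank_submatrix, ← trace_proj p hp, ← trace_proj q hq]
    have h1 : (((Finset.range Λ).filter fun i : ℕ => gam φ R (zt (i : ℤ) • x) ≠ 1).card : ℝ) ≤
        ((bad φ x Λ P).card : ℝ) := by
      have : ((Finset.range Λ).filter fun i : ℕ => gam φ R (zt (i : ℤ) • x) ≠ 1) ⊆
          bad φ x Λ P := by
        intro i hi
        rw [Finset.mem_filter, Finset.mem_range] at hi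
        obtain ⟨m, hm, hm'⟩ := gam_ne hi.2
        rw [← mul_smul, ← zt_add] at hm'
        refine mem_bad hi.1 hφ0' hφΛ' (m + i) ?_ (Or.inr (Or.inr hm'))
        rw [add_sub_cancel_right]
        refine hm.trans ?_
        rw [hP]
        push_cast
        have : (0 : ℤ) ≤ Nw * R := by positivity
        linarith
      exact_mod_cast Finset.card_le_card this
    have h2 : (n : ℝ) * (((Finset.range Λ).filter
        fun i : ℕ => gam φ R (zt (i : ℤ) • x) ≠ 1).card : ℝ) ≤ (γ / 2) * Λ :=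
      (mul_le_mul_of_nonneg_left h1 (by positivity)).trans hb2
    have h3 := hgap Λ (by omega) x
    have h4 : ∑ s ∈ S, (Ft E (phi δ b) - Ft E (phi ε a)) (s • x) =
        ∑ i ∈ Finset.range Λ, (Ft E (phi δ b) - Ft E (phi ε a)) (zt ((i : ℕ) : ℤ) • x) := by
      rw [hSdef, Finset.sum_image (fun i _ j _ h => hinj h)]
    rw [h4, hScard] at hpq
    linarith

end Pool.Agent.H747.MDRG
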