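import Pool.Agent.H465.OC.StmB
import Pool.Graph.R_pool_sql_team_seeded_3997aac3.Q279.SC.J.SMALL

/-!
# Project OC, Small 3
-/

set_option autoImplicit false

namespace Pool.Agent.H747.OCSmall3

open Pool.Agent.Q279.SC Pool.Agent.H465.OC

abbrev R9 := ZMod 9

def AG (N : ℕ) (f : PowerSeries R9) (a : List R9) : Prop :=
  ∀ n < N, PowerSeries.coeff n f = a.getD n 0

theorem AG.mul {N : ℕ} {f g : PowerSeries R9} {a b : List R9} (hf : AG N f a) (hg : AG N g b)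
    (c : List R9)
    (h : ∀ n < N, ∑ ij ∈ Finset.HasAntidiagonal.antidiagonal n, a.getD ij.1 0 * b.getD ij.2 0 =
      c.getD n 0) : AG N (f * g) c := by
  intro n hn
  rw [PowerSeries.coeff_mul, ← h n hn]
  apply Finset.sum_congr rfl
  intro ij hij
  have := Finset.HasAntidiagonal.mem_antidiagonal.mp hij
  rw [hf _ (by omega), hg _ (by omega)]

theorem AG.add {N : ℕ} {f g : PowerSeries R9} {a b : List R9} (hf : AG N f a) (hg : AG N g b)
    (c : List R9) (h : ∀ n < N, a.getD n 0 + b.getD n 0 = c.getD n 0) : AG N (f + g) c := by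
  intro n hn
  rw [map_add, hf n hn, hg n hn, h n hn]

theorem AG.sub {N : ℕ} {f g : PowerSeries R9} {a b : List R9} (hf : AG N f a) (hg : AG N g b)
    (c : List R9) (h : ∀ n < N, a.getD n 0 - b.getD n 0 = c.getD n 0) : AG N (f - g) c := by
  intro n hn
  rw [map_sub, hf n hn, hg n hn, h n hn]

theorem AG.mono {N M : ℕ} {f : PowerSeries R9} {a : List R9} (hf : AG N f a) (h : M ≤ N) :
    AG M f a := fun n hn => hf n (by omega)

theorem AG_C (N : ℕ) (k : R9) : AG N (PowerSeries.C k) [k] := by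
  intro n hn
  rw [PowerSeries.coeff_C]
  cases n with
  | zero => rfl
  | succ n => rfl

theorem AG_nat (N k : ℕ) [k.AtLeastTwo] (r : R9) (hr : ((k : ℕ) : R9) = r) :
    AG N (OfNat.ofNat k : PowerSeries R9) [r] := by
  have h1 : (OfNat.ofNat k : PowerSeries R9) = PowerSeries.C r := by
    rw [← hr, map_natCast]
    rfl
  rw [h1]
  exact AG_C N r

theorem AG_one (N : ℕ) : AG N 1 [1] := by
  have := AG_C N 1
  rwa [map_one] at this

theorem agA : AG 10 (PowerSeries.map (Int.castRingHom R9) zA) [0, 1, 0, 1, 1, 0, 0, 2, 0, 1] := by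
  intro n hn
  rw [PowerSeries.coeff_map, zA, PowerSeries.coeff_mk]
  interval_cases n <;> decide +kernel

theorem agB : AG 10 (PowerSeries.map (Int.castRingHom R9) zB) [0, 1, 6, 1, 4, 3, 6, 5, 3, 1] := by
  intro n hn
  rw [PowerSeries.coeff_map, zB, PowerSeries.coeff_mk]
  interval_cases n <;> decide +kernel

theorem agQ : AG 10 (PowerSeries.map (Int.castRingHom R9) zQ) [0, 1, 5, 1, 8, 4, 5, 3, 4, 1] := by
  intro n hn
  rw [PowerSeries.coeff_map, zQ, PowerSeries.coeff_mk]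
  interval_cases n <;> decide +kernel

theorem ag4 : AG 10 (q4 R9) [1, 6, 0, 6, 6, 0, 0, 3, 0, 6] := by
  have h : q4 R9 = 1 + 240 * PowerSeries.map (Int.castRingHom R9) zA := by
    rw [q4, z4, map_add, map_mul, map_one, map_ofNat]
  rw [h]
  exact (AG_one 10).add ((AG_nat 10 240 6 (by decide +kernel)).mul agA
    [0, 6, 0, 6, 6, 0, 0, 3, 0, 6] (by decide +kernel)) _ (by decide +kernel)

theorem agD : AG 10 (qD R9) [0, 1, 3, 0, 4, 6, 0, 5, 6, 0] := by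
  have h : qD R9 = PowerSeries.map (Int.castRingHom R9) zQ +
      100 * (PowerSeries.map (Int.castRingHom R9) zA * PowerSeries.map (Int.castRingHom R9) zA) +
      8000 * (PowerSeries.map (Int.castRingHom R9) zA * PowerSeries.map (Int.castRingHom R9) zA *
        PowerSeries.map (Int.castRingHom R9) zA) -
      147 * (PowerSeries.map (Int.castRingHom R9) zB * PowerSeries.map (Int.castRingHom R9) zB) := by
    rw [qD, zD, map_sub, map_add, map_add, map_mul, map_mul, map_mul, map_ofNat, map_ofNat,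
      map_ofNat, map_pow, map_pow, map_pow]
    ring
  rw [h]
  have hA2 := agA.mul agA [0, 0, 1, 0, 2, 2, 1, 2, 5, 0] (by decide +kernel)
  have hA3 := hA2.mul agA [0, 0, 0, 1, 0, 3, 3, 3, 6, 1] (by decide +kernel)
  have hB2 := agB.mul agB [0, 0, 1, 3, 2, 2, 1, 2, 5, 3] (by decide +kernel)
  have h1 := (AG_nat 10 100 1 (by decide +kernel)).mul hA2 [0, 0, 1, 0, 2, 2, 1, 2, 5, 0]
    (by decide +kernel)
  have h2 := (AG_nat 10 8000 8 (by decide +kernel)).mul hA3 [0, 0, 0, 8, 0, 6, 6, 6, 3, 8]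
    (by decide +kernel)
  have h3 := (AG_nat 10 147 3 (by decide +kernel)).mul hB2 [0, 0, 3, 0, 6, 6, 3, 6, 6, 0]
    (by decide +kernel)
  exact ((agQ.add h1 [0, 1, 6, 1, 1, 6, 6, 5, 0, 1] (by decide +kernel)).add h2
    [0, 1, 6, 0, 1, 3, 3, 2, 3, 0] (by decide +kernel)).sub h3 _ (by decide +kernel)

theorem agd : AG 9 (qd R9) [1, 3, 0, 4, 6, 0, 5, 6, 0] := by
  intro n hn
  have h1 := agD (n + 1) (by omega)
  rw [qD, PowerSeries.coeff_map] at h1
  rw [qd, PowerSeries.coeff_map, zd, PowerSeries.coeff_mk, h1]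
  interval_cases n <;> rfl

theorem ag43 : AG 10 (q4 R9 ^ 3) [1] := by
  have h : q4 R9 ^ 3 = q4 R9 * q4 R9 * q4 R9 := by ring
  rw [h]
  exact (ag4.mul ag4 [1, 3, 0, 3, 3, 0, 0, 6, 0, 3] (by decide +kernel)).mul ag4 _
    (by decide +kernel)

theorem agG : AG 9 (q4 R9 * qd R9) [1, 0, 0, 1, 0, 0, 2, 0, 0] :=
  (ag4.mono (by norm_num)).mul agd _ (by decide +kernel)

/-- uniqueness of the quotient -/
theorem AG.div {N : ℕ} {Φ F G : PowerSeries R9} {f g : List R9} (hF : AG N F f) (hG : AG N G g)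
    (h : Φ * F = G) (hf : f.getD 0 0 = 1) (φ : List R9)
    (hφ : ∀ n < N, ∑ ij ∈ Finset.HasAntidiagonal.antidiagonal n, φ.getD ij.1 0 * f.getD ij.2 0 =
      g.getD n 0) : AG N Φ φ := by
  intro n
  induction n using Nat.strong_induction_on with
  | _ n ih =>
    intro hn
    have h1 : PowerSeries.coeff n (Φ * F) = PowerSeries.coeff n G := by rw [h]
    rw [PowerSeries.coeff_mul, hG n hn, ← hφ n hn] at h1
    have hmem : ((n, 0) : ℕ × ℕ) ∈ Finset.HasAntidiagonal.antidiagonal n :=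
      Finset.HasAntidiagonal.mem_antidiagonal.mpr (by simp)
    rw [← Finset.add_sum_erase _ _ hmem, ← Finset.add_sum_erase _ _ hmem] at h1
    have h2 : ∑ ij ∈ (Finset.HasAntidiagonal.antidiagonal n).erase (n, 0),
        PowerSeries.coeff ij.1 Φ * PowerSeries.coeff ij.2 F =
        ∑ ij ∈ (Finset.HasAntidiagonal.antidiagonal n).erase (n, 0),
        φ.getD ij.1 0 * f.getD ij.2 0 := by
      apply Finset.sum_congr rfl
      intro ij hij
      rw [Finset.mem_erase] at hij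
      have h3 := Finset.HasAntidiagonal.mem_antidiagonal.mp hij.2
      have h4 : ij.1 ≠ n := by
        intro h5
        apply hij.1
        ext
        · exact h5
        · show ij.2 = 0
          omega
      rw [ih ij.1 (by omega) (by omega), hF ij.2 (by omega)]
    rw [h2] at h1
    have h5 := add_right_cancel h1
    simp only at h5
    rw [hF 0 (by omega), hf, mul_one, mul_one] at h5
    exact h5

theorem vals (n : ℕ) (hn0 : 0 < n) (hn : n < 3) (Φ : PowerSeries ℤ)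
    (h : Φ * (q4 ℤ ^ 3 - PowerSeries.C (n : ℤ) * qD ℤ) = q4 ℤ * qd ℤ) :
    ((PowerSeries.coeff 2 Φ : ℤ) : R9) = (if n = 1 then 4 else 1) ∧
    ((PowerSeries.coeff 8 Φ : ℤ) : R9) = 7 := by
  have e : ∀ f : PowerSeries ℤ, PowerSeries.map (Int.castRingHom R9)
      (PowerSeries.map (Int.castRingHom ℤ) f) = PowerSeries.map (Int.castRingHom R9) f := by
    intro f
    ext k
    rw [PowerSeries.coeff_map, PowerSeries.coeff_map, PowerSeries.coeff_map]
    simp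
  have h1 := congrArg (PowerSeries.map (Int.castRingHom R9)) h
  rw [map_mul, map_sub, map_mul, map_mul, map_pow, PowerSeries.map_C, q4, qD, qd, e, e, e] at h1
  change PowerSeries.map (Int.castRingHom R9) Φ * (q4 R9 ^ 3 - PowerSeries.C
    (Int.castRingHom R9 (n : ℤ)) * qD R9) = q4 R9 * qd R9 at h1
  have hn' : n = 1 ∨ n = 2 := by omega
  rcases hn' with rfl | rfl
  · have hF : AG 9 (q4 R9 ^ 3 - PowerSeries.C (Int.castRingHom R9 ((1 : ℕ) : ℤ)) * qD R9)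
        [1, 8, 6, 0, 5, 3, 0, 4, 3] := by
      have e1 : Int.castRingHom R9 ((1 : ℕ) : ℤ) = 1 := by simp
      rw [e1]
      exact (ag43.mono (by norm_num)).sub (((AG_C 9 1).mul (agD.mono (by norm_num))
        [0, 1, 3, 0, 4, 6, 0, 5, 6] (by decide +kernel))) _ (by decide +kernel)
    have h2 := AG.div hF agG h1 rfl [1, 1, 4, 8, 6, 4, 1, 2, 7] (by decide +kernel)
    have h3 := h2 2 (by norm_num)
    have h4 := h2 8 (by norm_num)
    rw [PowerSeries.coeff_map] at h3 h4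
    exact ⟨h3, h4⟩
  · have hF : AG 9 (q4 R9 ^ 3 - PowerSeries.C (Int.castRingHom R9 ((2 : ℕ) : ℤ)) * qD R9)
        [1, 7, 3, 0, 1, 6, 0, 8, 6] := by
      have e1 : Int.castRingHom R9 ((2 : ℕ) : ℤ) = 2 := by simp
      rw [e1]
      exact (ag43.mono (by norm_num)).sub (((AG_C 9 2).mul (agD.mono (by norm_num))
        [0, 2, 6, 0, 8, 3, 0, 1, 3] (by decide +kernel))) _ (by decide +kernel)
    have h2 := AG.div hF agG h1 rfl [1, 2, 1, 6, 8, 8, 8, 8, 7] (by decide +kernel)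
    have h3 := h2 2 (by norm_num)
    have h4 := h2 8 (by norm_num)
    rw [PowerSeries.coeff_map] at h3 h4
    exact ⟨h3, h4⟩

set_option maxRecDepth 1000000 in
theorem dec3 : ∀ a1 a2 a3 a4 a6 : ZMod 3,
    (-(a1 ^ 2 + 4 * a2) ^ 2 * (a1 ^ 2 * a6 + 4 * a2 * a6 - a1 * a3 * a4 + a2 * a3 ^ 2 - a4 ^ 2) -
      8 * (2 * a4 + a1 * a3) ^ 3 - 27 * (a3 ^ 2 + 4 * a6) ^ 2 +
      9 * (a1 ^ 2 + 4 * a2) * (2 * a4 + a1 * a3) * (a3 ^ 2 + 4 * a6) ≠ 0) →
    ((a1 ^ 2 + 4 * a2) ^ 2 - 24 * (2 * a4 + a1 * a3) ≠ 0) →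
    (-(a1 ^ 2 + 4 * a2) ^ 2 * (a1 ^ 2 * a6 + 4 * a2 * a6 - a1 * a3 * a4 + a2 * a3 ^ 2 - a4 ^ 2) -
      8 * (2 * a4 + a1 * a3) ^ 3 - 27 * (a3 ^ 2 + 4 * a6) ^ 2 +
      9 * (a1 ^ 2 + 4 * a2) * (2 * a4 + a1 * a3) * (a3 ^ 2 + 4 * a6) =
        ((a1 ^ 2 + 4 * a2) ^ 2 - 24 * (2 * a4 + a1 * a3)) ^ 3 →
      ((Finset.univ.filter (fun xy : ZMod 3 × ZMod 3 => xy.2 ^ 2 + a1 * xy.1 * xy.2 + a3 * xy.2 =
      xy.1 ^ 3 + a2 * xy.1 ^ 2 + a4 * xy.1 + a6)).card = 2 ∨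
      (Finset.univ.filter (fun xy : ZMod 3 × ZMod 3 => xy.2 ^ 2 + a1 * xy.1 * xy.2 + a3 * xy.2 =
      xy.1 ^ 3 + a2 * xy.1 ^ 2 + a4 * xy.1 + a6)).card = 4)) ∧
    (2 * (-(a1 ^ 2 + 4 * a2) ^ 2 * (a1 ^ 2 * a6 + 4 * a2 * a6 - a1 * a3 * a4 + a2 * a3 ^ 2 - a4 ^ 2) -
      8 * (2 * a4 + a1 * a3) ^ 3 - 27 * (a3 ^ 2 + 4 * a6) ^ 2 +
      9 * (a1 ^ 2 + 4 * a2) * (2 * a4 + a1 * a3) * (a3 ^ 2 + 4 * a6)) =
        ((a1 ^ 2 + 4 * a2) ^ 2 - 24 * (2 * a4 + a1 * a3)) ^ 3 →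
      ((Finset.univ.filter (fun xy : ZMod 3 × ZMod 3 => xy.2 ^ 2 + a1 * xy.1 * xy.2 + a3 * xy.2 =
      xy.1 ^ 3 + a2 * xy.1 ^ 2 + a4 * xy.1 + a6)).card = 1 ∨
      (Finset.univ.filter (fun xy : ZMod 3 × ZMod 3 => xy.2 ^ 2 + a1 * xy.1 * xy.2 + a3 * xy.2 =
      xy.1 ^ 3 + a2 * xy.1 ^ 2 + a4 * xy.1 + a6)).card = 5)) := by
  decide +kernel

theorem main : Pool.Agent.H465.OC.Small 3 := by
  intro W hD h4 _ _ n hn0 hn hdvd Φ hΦ t ht ht3 hdv
  have : Fact (Nat.Prime 3) := ⟨by norm_num⟩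
  obtain ⟨V, hV⟩ : ∃ V, V = W.map (Int.castRingHom (ZMod 3)) := ⟨_, rfl⟩
  have hDV : ((W.Δ : ℤ) : ZMod 3) = V.Δ := by
    rw [hV, WeierstrassCurve.map_Δ]; rfl
  have hc4 : ((W.c₄ : ℤ) : ZMod 3) = V.c₄ := by
    rw [hV, WeierstrassCurve.map_c₄]; rfl
  have hVD : V.Δ ≠ 0 := by
    rw [← hDV]
    intro h0
    exact hD ((ZMod.intCast_zmod_eq_zero_iff_dvd _ 3).1 h0)
  have hVc : V.c₄ ≠ 0 := by
    rw [← hc4]
    intro h0
    exact h4 ((ZMod.intCast_zmod_eq_zero_iff_dvd _ 3).1 h0)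
  have hj : (n : ZMod 3) * V.Δ = V.c₄ ^ 3 := by
    have h5 := (ZMod.intCast_zmod_eq_zero_iff_dvd _ 3).2 hdvd
    push_cast at h5
    rw [hDV, hc4] at h5
    exact sub_eq_zero.mp h5
  have hap : ap W 3 = 3 - ((Finset.univ.filter (fun xy : ZMod 3 × ZMod 3 =>
      xy.2 ^ 2 + V.a₁ * xy.1 * xy.2 + V.a₃ * xy.2 =
      xy.1 ^ 3 + V.a₂ * xy.1 ^ 2 + V.a₄ * xy.1 + V.a₆)).card : ℤ) := by
    unfold ap
    rw [← hV, JSMALL.card_mod V hVD]
    push_cast
    ring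
  rw [hap]
  obtain ⟨k, hk⟩ : ∃ k, k = (Finset.univ.filter (fun xy : ZMod 3 × ZMod 3 =>
      xy.2 ^ 2 + V.a₁ * xy.1 * xy.2 + V.a₃ * xy.2 =
      xy.1 ^ 3 + V.a₂ * xy.1 ^ 2 + V.a₄ * xy.1 + V.a₆)).card := ⟨_, rfl⟩
  rw [← hk]
  obtain ⟨v1, v2⟩ := vals n hn0 hn Φ hΦ
  have h6 : (((t ^ 2 - 2 * ((3 : ℕ) : ℤ)) * PowerSeries.coeff (3 - 1) Φ -
      PowerSeries.coeff (3 ^ 2 - 1) Φ : ℤ) : R9) = 0 := by
    rw [ZMod.intCast_zmod_eq_zero_iff_dvd]
    exact hdv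
  have h7 : ((t : R9) ^ 2 - 6) * (if n = 1 then 4 else 1) - 7 = 0 := by
    rw [← v1, ← v2, ← h6]
    push_cast
    norm_num
  have h8 := dec3 V.a₁ V.a₂ V.a₃ V.a₄ V.a₆ (by
    intro h0
    apply hVD
    unfold WeierstrassCurve.Δ WeierstrassCurve.b₂ WeierstrassCurve.b₄ WeierstrassCurve.b₆
      WeierstrassCurve.b₈
    exact h0) (by
    intro h0
    apply hVc
    unfold WeierstrassCurve.c₄ WeierstrassCurve.b₂ WeierstrassCurve.b₄
    exact h0)
  unfold WeierstrassCurve.Δ WeierstrassCurve.b₂ WeierstrassCurve.b₄ WeierstrassCurve.b₆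
      WeierstrassCurve.b₈ WeierstrassCurve.c₄ WeierstrassCurve.b₂ WeierstrassCurve.b₄ at hj
  rw [← hk] at h8
  have ht : t ^ 2 < 12 := by
    norm_num at ht
    exact ht
  have ht1 : -4 < t := by nlinarith
  have ht2 : t < 4 := by nlinarith
  have hn' : n = 1 ∨ n = 2 := by omega
  rcases hn' with rfl | rfl
  · have h9 := h8.1 (by
      rw [Nat.cast_one, one_mul] at hj
      exact hj)
    rw [if_pos rfl] at h7
    have h10 : t ^ 2 = 1 := by
      interval_cases t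
      · exact absurd ⟨-1, by norm_num⟩ ht3
      · exact absurd h7 (by decide +kernel)
      · norm_num
      · exact absurd ⟨0, by norm_num⟩ ht3
      · norm_num
      · exact absurd h7 (by decide +kernel)
      · exact absurd ⟨1, by norm_num⟩ ht3
    rw [h10]
    rcases h9 with h9 | h9 <;> rw [h9] <;> norm_num
  · have h9 := h8.2 (by
      exact hj)
    rw [if_neg (by norm_num)] at h7
    have h10 : t ^ 2 = 4 := by
      interval_cases t
      · exact absurd ⟨-1, by norm_num⟩ ht3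
      · norm_num
      · exact absurd h7 (by decide +kernel)
      · exact absurd ⟨0, by norm_num⟩ ht3
      · exact absurd h7 (by decide +kernel)
      · norm_num
      · exact absurd ⟨1, by norm_num⟩ ht3
    rw [h10]
    rcases h9 with h9 | h9 <;> rw [h9] <;> norm_num

end Pool.Agent.H747.OCSmall3
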