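import Pool.Agent.H683.CV.Lem

/-!
# Budgeted graph coloring: if no constraint is violated then a coloring exists (helper747)
-/

set_option autoImplicit false

namespace Pool.Agent.H747.CVExt

open Pool.Agent.NPC Pool.Agent.H633R2 Pool.Agent.H683.CV

theorem adj_comm (M : List (List Bool)) (u v : ℕ) : adj M u v = adj M v u := by
  unfold adj
  rw [Bool.or_comm]
  congr 1
  simp [eq_comm]

theorem adj_ne {M : List (List Bool)} {u v : ℕ} (h : adj M u v = true) : u ≠ v := by
  unfold adj at h
  simp only [Bool.and_eq_true, decide_eq_true_eq] at h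
  exact h.1

theorem nin_iff (S : List ℕ) (u : ℕ) : nin S u = true ↔ u ∉ S := by
  unfold nin
  rw [List.all_eq_true]
  constructor
  · intro h hu
    have := h u hu
    simp at this
  · intro h s hs
    simp only [Bool.not_eq_true', decide_eq_false_iff_not]
    rintro rfl
    exact h hs

theorem mem_vs (M : List (List Bool)) (S : List ℕ) (v : ℕ) :
    v ∈ vs M S ↔ v < M.length ∧ v ∉ S := by
  unfold vs
  rw [List.mem_filter, List.mem_range, nin_iff]

theorem mem_clq (M : List (List Bool)) (S : List ℕ) (r v : ℕ) :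
    v ∈ clq M S r ↔ v ∈ vs M S ∧ (v = r ∨ adj M r v = true) := by
  unfold clq
  rw [List.mem_filter]
  simp only [Bool.or_eq_true, decide_eq_true_eq]

theorem mem_reps (M : List (List Bool)) (S : List ℕ) (v : ℕ) :
    v ∈ reps M S ↔ v ∈ vs M S ∧ ∀ u ∈ vs M S, ¬ (adj M u v = true ∧ u < v) := by
  unfold reps
  rw [List.mem_filter, List.all_eq_true]
  simp only [Bool.not_eq_true', Bool.and_eq_false_iff, decide_eq_false_iff_not, not_and]
  constructor
  · rintro ⟨h1, h2⟩
    refine ⟨h1, fun u hu h3 h4 => ?_⟩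
    rcases h2 u hu with h5 | h5
    · rw [h3] at h5
      exact Bool.noConfusion h5
    · exact h5 h4
  · rintro ⟨h1, h2⟩
    refine ⟨h1, fun u hu => ?_⟩
    by_cases h3 : adj M u v = true
    · exact Or.inr (h2 u hu h3)
    · left
      simpa using h3

theorem nodup_vs (M : List (List Bool)) (S : List ℕ) : (vs M S).Nodup :=
  List.nodup_range.filter _

theorem nodup_reps (M : List (List Bool)) (S : List ℕ) : (reps M S).Nodup :=
  (nodup_vs M S).filter _

theorem length_vs (M : List (List Bool)) (S : List ℕ) : (vs M S).length ≤ M.length :=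
  (List.length_filter_le _ _).trans (le_of_eq List.length_range)

theorem length_reps (M : List (List Bool)) (S : List ℕ) : (reps M S).length ≤ M.length :=
  (List.length_filter_le _ _).trans (length_vs M S)

theorem wv_le (M : List (List Bool)) (S : List ℕ) (Z : List (ℕ × ℕ)) (p r J : ℕ) :
    wv M S Z p r J ≤ M.length :=
  (List.length_filter_le _ _).trans ((List.length_filter_le _ _).trans (length_vs M S))

/-- The vertices that are equal or adjacent to `v`. -/
def C (M : List (List Bool)) (S : List ℕ) (v : ℕ) : Finset ℕ :=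
  (vs M S).toFinset.filter fun u => u = v ∨ adj M u v = true

theorem mem_C (M : List (List Bool)) (S : List ℕ) (v u : ℕ) :
    u ∈ C M S v ↔ u ∈ vs M S ∧ (u = v ∨ adj M u v = true) := by
  unfold C
  rw [Finset.mem_filter, List.mem_toFinset]

theorem C_nonempty (M : List (List Bool)) (S : List ℕ) (v : ℕ) (hv : v ∈ vs M S) :
    (C M S v).Nonempty := ⟨v, (mem_C M S v v).2 ⟨hv, Or.inl rfl⟩⟩

/-- transitivity -/
theorem C_trans (M : List (List Bool)) (S : List ℕ) (hS : GoodS M S) (u v w : ℕ)
    (hu : u ∈ vs M S) (hv : v ∈ vs M S) (hw : w ∈ vs M S) (h1 : u = v ∨ adj M u v = true)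
    (h2 : v = w ∨ adj M v w = true) : u = w ∨ adj M u w = true := by
  rcases h1 with rfl | h1
  · exact h2
  rcases h2 with rfl | h2
  · exact Or.inr h1
  by_cases h3 : u = w
  · exact Or.inl h3
  · rw [mem_vs] at hu hv hw
    exact Or.inr (hS.2.2 u hu.1 v hv.1 w hw.1 hu.2 hv.2 hw.2 h1 h2 h3)

/-- The representative of the clique of `v`. -/
def rp (M : List (List Bool)) (S : List ℕ) (v : ℕ) (hv : v ∈ vs M S) : ℕ :=
  (C M S v).min' (C_nonempty M S v hv)

theorem rp_mem (M : List (List Bool)) (S : List ℕ) (v : ℕ) (hv : v ∈ vs M S) :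
    rp M S v hv ∈ C M S v := Finset.min'_mem _ _

theorem rp_reps (M : List (List Bool)) (S : List ℕ) (hS : GoodS M S) (v : ℕ)
    (hv : v ∈ vs M S) : rp M S v hv ∈ reps M S := by
  have h1 := (mem_C M S v _).1 (rp_mem M S v hv)
  rw [mem_reps]
  refine ⟨h1.1, ?_⟩
  rintro u hu ⟨h2, h3⟩
  have h4 : u ∈ C M S v :=
    (mem_C M S v u).2 ⟨hu, C_trans M S hS u _ v hu h1.1 hv (Or.inr h2) h1.2⟩
  exact absurd (Finset.min'_le _ _ h4) (not_le.2 h3)

theorem rp_clq (M : List (List Bool)) (S : List ℕ) (v : ℕ)
    (hv : v ∈ vs M S) : v ∈ clq M S (rp M S v hv) := by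
  have h1 := (mem_C M S v _).1 (rp_mem M S v hv)
  rw [mem_clq]
  refine ⟨hv, ?_⟩
  rcases h1.2 with h2 | h2
  · exact Or.inl h2.symm
  · exact Or.inr h2

theorem rp_le (M : List (List Bool)) (S : List ℕ) (hS : GoodS M S) (u v : ℕ)
    (hu : u ∈ vs M S) (hv : v ∈ vs M S) (h : adj M u v = true) :
    rp M S u hu ≤ rp M S v hv := by
  have h1 := (mem_C M S v _).1 (rp_mem M S v hv)
  refine Finset.min'_le _ _ ((mem_C M S u _).2 ⟨h1.1, ?_⟩)
  refine C_trans M S hS _ v u h1.1 hv hu h1.2 (Or.inr ?_)
  rw [adj_comm]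
  exact h

theorem rp_eq (M : List (List Bool)) (S : List ℕ) (hS : GoodS M S) (u v : ℕ)
    (hu : u ∈ vs M S) (hv : v ∈ vs M S) (h : adj M u v = true) :
    rp M S u hu = rp M S v hv :=
  le_antisymm (rp_le M S hS u v hu hv h)
    (rp_le M S hS v u hv hu (by rw [adj_comm]; exact h))

theorem val_ge (M : List (List Bool)) (S : List ℕ) (Z : List (ℕ × ℕ)) (p : ℕ) (w : List Unit)
    (r A J : ℕ) (hw : 2 ^ p ≤ w.length) (hJ : J < 2 ^ p) (hs : sub p A J = true) :
    wv M S Z p r J ≤ val M S Z p w r A + dif p A J := by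
  have h1 : (Finset.range (wv M S Z p r J - dif p A J)) ⊆
      ((List.range M.length).filter fun m => (subs p w).any fun J =>
        sub p A J && decide (m < wv M S Z p r J - dif p A J)).toFinset := by
    intro m hm
    rw [Finset.mem_range] at hm
    rw [List.mem_toFinset, List.mem_filter, List.mem_range, List.any_eq_true]
    have h2 := wv_le M S Z p r J
    refine ⟨by omega, J, ?_, ?_⟩
    · unfold subs
      rw [List.mem_range]
      exact lt_min hJ (lt_of_lt_of_le hJ hw)
    · rw [hs, Bool.true_and, decide_eq_true_eq]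
      exact hm
  have h2 := (Finset.card_le_card h1).trans (List.toFinset_card_le _)
  rw [Finset.card_range] at h2
  have h3 : val M S Z p w r A = ((List.range M.length).filter fun m => (subs p w).any fun J =>
        sub p A J && decide (m < wv M S Z p r J - dif p A J)).length := rfl
  omega

theorem sum_map_range (f : ℕ → ℕ) (p : ℕ) :
    ((List.range p).map f).sum = ∑ j : Fin p, f j := by
  rw [Fin.sum_univ_eq_sum_range]
  rfl

theorem sum_map_getD (f : ℕ → ℕ) (B : List ℕ) :
    (B.map f).sum = ∑ i ∈ Finset.range B.length, f (B.getD i 0) := by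
  induction B with
  | nil => simp
  | cons a l ih =>
    rw [List.map_cons, List.sum_cons, ih, List.length_cons, Finset.sum_range_succ']
    simp only [List.getD_cons_succ, List.getD_cons_zero]
    rw [add_comm]

/-- The indices of the other colors. -/
def ns (B : List ℕ) (p : ℕ) (col : ℕ → ℕ) : Finset ℕ :=
  (Finset.range B.length).filter fun i => ∀ j : Fin p, col j ≠ i

theorem sum_split (B : List ℕ) (p n : ℕ) (col : ℕ → ℕ) (x : List ℕ) (t : ℕ) (ht : t ≤ n)
    (h : IsSel n B p col x) :
    (B.map fun b => min b t).sum = ∑ i : ns B p col, min (B.getD i 0) t +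
      ∑ j : Fin p, min (x.getD j 0) t := by
  rw [sum_map_getD, ← Finset.sum_filter_add_sum_filter_not (Finset.range B.length)
    (fun i => ∀ j : Fin p, col j ≠ i)]
  congr 1
  · rw [← Finset.sum_coe_sort]
    rfl
  · have h1 : (Finset.range B.length).filter (fun i => ¬ ∀ j : Fin p, col j ≠ i) =
        Finset.univ.image (fun j : Fin p => col j) := by
      ext i
      simp only [Finset.mem_filter, Finset.mem_range, not_forall, not_not, Finset.mem_image,
        Finset.mem_univ, true_and]
      constructor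
      · rintro ⟨_, h2⟩
        exact h2
      · rintro ⟨j, h2⟩
        exact ⟨h2 ▸ h.1 j j.2, j, h2⟩
    rw [h1, Finset.sum_image]
    · refine Finset.sum_congr rfl fun j _ => ?_
      rw [h.2.2 j j.2]
      omega
    · intro i _ j _ hij
      exact Fin.ext (h.2.1 i i.2 j j.2 hij)

theorem siz_le (M : List (List Bool)) (B S x : List ℕ) (Z : List (ℕ × ℕ)) (p : ℕ)
    (w : List Unit) (hb : S_BITS)
    (hv : ∀ t ≤ (reps M S).length, ∀ A < 2 ^ p, viol M B S Z p w x t A = false)
    (j : ℕ) (hj : j < p) : siz Z j ≤ x.getD j 0 := by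
  obtain ⟨a, ha, hab⟩ := hb p {j} (by simpa using hj)
  have h1 := hv 0 (Nat.zero_le _) a ha
  unfold viol at h1
  rw [List.all_eq_false] at h1
  obtain ⟨l, _, hl⟩ := h1
  rw [decide_eq_true_eq, not_lt] at hl
  unfold lhs rhs at hl
  have h2 : (B.map fun b => min b 0).sum = 0 := by
    rw [List.sum_eq_zero]
    intro y hy
    rw [List.mem_map] at hy
    obtain ⟨b, _, rfl⟩ := hy
    exact Nat.min_zero b
  rw [h2, sum_map_range, sum_map_range] at hl
  have h3 : ∑ i : Fin p, (if bt a i = true then siz Z i else min (x.getD i 0) 0) = siz Z j := by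
    rw [Finset.sum_eq_single (⟨j, hj⟩ : Fin p)]
    · simp [hab]
    · intro i _ hi
      have : (i : ℕ) ≠ j := fun h => hi (Fin.ext h)
      simp [hab, this]
    · intro h
      exact absurd (Finset.mem_univ _) h
  have h4 : ∑ i : Fin p, (if bt a i = true then x.getD i 0 - 0 else 0) = x.getD j 0 := by
    rw [Finset.sum_eq_single (⟨j, hj⟩ : Fin p)]
    · simp [hab]
    · intro i _ hi
      have : (i : ℕ) ≠ j := fun h => hi (Fin.ext h)
      simp [hab, this]
    · intro h
      exact absurd (Finset.mem_univ _) h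
  rw [h3, h4] at hl
  omega

/-- The clique of a vertex. -/
def rK (M : List (List Bool)) (S : List ℕ) (hS : GoodS M S) (v : (vs M S).toFinset) :
    (reps M S).toFinset :=
  ⟨rp M S v.1 (List.mem_toFinset.1 v.2), List.mem_toFinset.2 (rp_reps M S hS _ _)⟩

theorem mem_img (p : ℕ) (A : Finset (Fin p)) (j : Fin p) :
    (j : ℕ) ∈ A.image (fun i : Fin p => (i : ℕ)) ↔ j ∈ A := by
  rw [Finset.mem_image]
  constructor
  · rintro ⟨i, hi, hij⟩
    rwa [← Fin.ext hij]
  · intro h
    exact ⟨j, h, rfl⟩

theorem img_sub (p : ℕ) (A : Finset (Fin p)) :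
    A.image (fun i : Fin p => (i : ℕ)) ⊆ Finset.range p := by
  intro i hi
  rw [Finset.mem_image] at hi
  obtain ⟨j, _, rfl⟩ := hi
  exact Finset.mem_range.2 j.2

theorem hall_hyp (M : List (List Bool)) (B S x : List ℕ) (Z : List (ℕ × ℕ)) (p : ℕ)
    (w : List Unit) (col : ℕ → ℕ) (hS : GoodS M S) (hb : S_BITS) (hw : 2 ^ p ≤ w.length)
    (hsel : IsSel M.length B p col x)
    (hv : ∀ t ≤ (reps M S).length, ∀ A < 2 ^ p, viol M B S Z p w x t A = false)
    (A : Finset (Fin p)) (T : Finset (reps M S).toFinset)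
    (J : (reps M S).toFinset → Finset (Fin p)) (hJ : ∀ k, A ⊆ J k) :
    ∑ k ∈ T, (Finset.univ.filter fun v : (vs M S).toFinset => rK M S hS v = k ∧
      ∀ j : Fin p, al M Z v j = true → j ∈ J k).card ≤
      ∑ i : ns B p col, min (B.getD i 0) T.card +
        ∑ j ∈ A, (x.getD (j : ℕ) 0 - siz Z j) + ∑ k ∈ T, (J k \ A).card := by
  classical
  obtain ⟨a, ha, hab⟩ := hb p _ (img_sub p A)
  have hab' : ∀ j : Fin p, bt a j = decide (j ∈ A) := by
    intro j
    rw [hab]
    exact decide_eq_decide.2 (mem_img p A j)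
  choose Jc hJc hJb using fun k => hb p _ (img_sub p (J k))
  have hJb' : ∀ k, ∀ j : Fin p, bt (Jc k) j = decide (j ∈ J k) := by
    intro k j
    rw [hJb]
    exact decide_eq_decide.2 (mem_img p (J k) j)
  have s1 : ∀ k, (Finset.univ.filter fun v : (vs M S).toFinset => rK M S hS v = k ∧
      ∀ j : Fin p, al M Z v j = true → j ∈ J k).card ≤ wv M S Z p k (Jc k) := by
    intro k
    refine (Finset.card_le_card_of_injOn (t := ((clq M S k).filter fun v =>
      (List.range p).all fun j => !al M Z v j || bt (Jc k) j).toFinset) (fun v => v.1)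
      ?_ ?_).trans (List.toFinset_card_le _)
    · intro v hv1
      rw [Finset.mem_coe, Finset.mem_filter] at hv1
      obtain ⟨_, h1, h2⟩ := hv1
      rw [Finset.mem_coe, List.mem_toFinset, List.mem_filter, List.all_eq_true]
      constructor
      · rw [← h1]
        exact rp_clq M S v.1 (List.mem_toFinset.1 v.2)
      · intro j hj
        rw [List.mem_range] at hj
        have h3 := h2 ⟨j, hj⟩
        have h4 := hJb' k ⟨j, hj⟩
        simp only at h3 h4
        rw [h4]
        cases h5 : al M Z v j with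
        | true => simp [h3 h5]
        | false => simp
    · intro u _ v _ huv
      exact Subtype.ext huv
  have s2 : ∀ k : (reps M S).toFinset,
      wv M S Z p k (Jc k) ≤ val M S Z p w k a + (J k \ A).card := by
    intro k
    have h1 : sub p a (Jc k) = true := by
      unfold sub
      rw [List.all_eq_true]
      intro j hj
      rw [List.mem_range] at hj
      have h3 := hab' ⟨j, hj⟩
      have h4 := hJb' k ⟨j, hj⟩
      have h5 := @hJ k ⟨j, hj⟩
      simp only at h3 h4
      rw [h3, h4]
      by_cases h6 : (⟨j, hj⟩ : Fin p) ∈ A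
      · simp [h5 h6]
      · simp [h6]
    have h2 := val_ge M S Z p w k a (Jc k) hw (hJc k) h1
    have h3 : dif p a (Jc k) ≤ (J k \ A).card := by
      unfold dif
      have h4 : ((List.range p).filter fun j => bt (Jc k) j && !bt a j).Nodup :=
        List.nodup_range.filter _
      rw [← List.toFinset_card_of_nodup h4]
      refine (Finset.card_le_card (t := (J k \ A).image (fun i : Fin p => (i : ℕ))) ?_).trans
        Finset.card_image_le
      intro j hj
      rw [List.mem_toFinset, List.mem_filter, List.mem_range] at hj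
      obtain ⟨hj1, hj2⟩ := hj
      have h5 := hab' ⟨j, hj1⟩
      have h6 := hJb' k ⟨j, hj1⟩
      simp only at h5 h6
      rw [h5, h6] at hj2
      simp only [Bool.and_eq_true, decide_eq_true_eq, Bool.not_eq_true',
        decide_eq_false_iff_not] at hj2
      exact Finset.mem_image.2 ⟨⟨j, hj1⟩, Finset.mem_sdiff.2 ⟨hj2.1, hj2.2⟩, rfl⟩
    omega
  have hTc : T.card ≤ (reps M S).length := by
    refine (Finset.card_le_univ T).trans ?_
    rw [Fintype.card_coe]
    exact List.toFinset_card_le _
  have h1 := hv T.card hTc a ha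
  unfold viol at h1
  rw [List.all_eq_false] at h1
  obtain ⟨l, _, hl⟩ := h1
  rw [decide_eq_true_eq, not_lt] at hl
  unfold lhs rhs at hl
  rw [sum_map_range, sum_map_range,
    sum_split B p M.length col x T.card (hTc.trans (length_reps M S)) hsel] at hl
  have s3 : ∑ k ∈ T, val M S Z p w k a ≤
      T.card * l + ((reps M S).map fun r => val M S Z p w r a - l).sum := by
    rw [← List.sum_toFinset _ (nodup_reps M S),
      ← Finset.sum_coe_sort (reps M S).toFinset (fun r => val M S Z p w r a - l)]
    calc ∑ k ∈ T, val M S Z p w k a ≤ ∑ k ∈ T, (l + (val M S Z p w k a - l)) :=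
          Finset.sum_le_sum fun k _ => by omega
      _ = T.card * l + ∑ k ∈ T, (val M S Z p w k a - l) := by
          rw [Finset.sum_add_distrib, Finset.sum_const, smul_eq_mul]
      _ ≤ _ := by
          gcongr
          exact Finset.subset_univ T
  have s4 : ∑ j : Fin p, (if bt a j = true then siz Z j else min (x.getD j 0) T.card) +
      ∑ j : Fin p, (if j ∈ A then min (x.getD (j : ℕ) 0) T.card else 0) =
      ∑ j : Fin p, (if j ∈ A then siz Z j else 0) + ∑ j : Fin p, min (x.getD (j : ℕ) 0) T.card := by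
    rw [← Finset.sum_add_distrib, ← Finset.sum_add_distrib]
    refine Finset.sum_congr rfl fun j _ => ?_
    rw [hab' j]
    by_cases h : j ∈ A
    · simp [h]
    · simp [h]
  have s5 : ∑ j : Fin p, (if bt a j = true then x.getD j 0 - T.card else 0) +
      ∑ j : Fin p, (if j ∈ A then min (x.getD (j : ℕ) 0) T.card else 0) =
      ∑ j : Fin p, (if j ∈ A then siz Z j else 0) + ∑ j ∈ A, (x.getD (j : ℕ) 0 - siz Z j) := by
    have e1 : ∑ j ∈ A, (x.getD (j : ℕ) 0 - siz Z j) =
        ∑ j : Fin p, if j ∈ A then x.getD (j : ℕ) 0 - siz Z j else 0 := by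
      rw [Finset.sum_ite_mem, Finset.univ_inter]
    rw [e1, ← Finset.sum_add_distrib, ← Finset.sum_add_distrib]
    refine Finset.sum_congr rfl fun j _ => ?_
    rw [hab' j]
    have h2 := siz_le M B S x Z p w hb hv j j.2
    by_cases h : j ∈ A
    · simp only [h, decide_true, if_true]
      omega
    · simp [h]
  have s6 : ∑ k ∈ T, (Finset.univ.filter fun v : (vs M S).toFinset => rK M S hS v = k ∧
      ∀ j : Fin p, al M Z v j = true → j ∈ J k).card ≤
      ∑ k ∈ T, val M S Z p w k a + ∑ k ∈ T, (J k \ A).card := by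
    rw [← Finset.sum_add_distrib]
    exact Finset.sum_le_sum fun k _ => (s1 k).trans (s2 k)
  omega

/-- The class of the vertex `v` of `S`. -/
def cls (S cm : List ℕ) (v : ℕ) : ℕ := cm.getD (S.idxOf v) 0

theorem cls_zip (S cm : List ℕ) (hl : cm.length = S.length) (hn : S.Nodup) (z : ℕ × ℕ)
    (hz : z ∈ S.zip cm) : z.1 ∈ S ∧ cls S cm z.1 = z.2 := by
  obtain ⟨i, hi, rfl⟩ := List.getElem_of_mem hz
  rw [List.length_zip, hl, min_self] at hi
  rw [List.getElem_zip]
  refine ⟨List.getElem_mem _, ?_⟩
  unfold cls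
  simp only
  rw [hn.idxOf_getElem, List.getD_eq_getElem _ _ (by omega)]

theorem zip_cls (S cm : List ℕ) (hl : cm.length = S.length) (v : ℕ) (hv : v ∈ S) :
    (v, cls S cm v) ∈ S.zip cm := by
  have h1 : S.idxOf v < S.length := List.idxOf_lt_length_of_mem hv
  have h2 : S.idxOf v < (S.zip cm).length := by
    rw [List.length_zip, hl, min_self]
    exact h1
  have h3 : (S.zip cm)[S.idxOf v] = (v, cls S cm v) := by
    rw [List.getElem_zip, List.getElem_idxOf]
    unfold cls
    rw [List.getD_eq_getElem _ _ (by omega)]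
  rw [← h3]
  exact List.getElem_mem _

theorem appl (M : List (List Bool)) (B S x : List ℕ) (Z : List (ℕ × ℕ)) (p : ℕ)
    (w : List Unit) (col : ℕ → ℕ) (hS : GoodS M S) (hb : S_BITS) (hh : S_HALL2)
    (hw : 2 ^ p ≤ w.length) (hsel : IsSel M.length B p col x)
    (hv : ∀ t ≤ (reps M S).length, ∀ A < 2 ^ p, viol M B S Z p w x t A = false) :
    ∃ f : (vs M S).toFinset → Fin p ⊕ ns B p col,
      (∀ v j, f v = Sum.inl j → al M Z v j = true) ∧
      (∀ u v, u ≠ v → rK M S hS u = rK M S hS v → f u ≠ f v) ∧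
      (∀ j, (Finset.univ.filter fun v => f v = Sum.inl j).card ≤
        x.getD (j : ℕ) 0 - siz Z j) ∧
      ∀ i, (Finset.univ.filter fun v => f v = Sum.inr i).card ≤ B.getD i 0 := by
  refine hh (vs M S).toFinset (reps M S).toFinset (Fin p) (ns B p col) (rK M S hS)
    (fun v j => al M Z v j) (fun j => x.getD (j : ℕ) 0 - siz Z j) (fun i => B.getD i 0) ?_
  intro A T J hJ
  refine le_trans (le_of_eq ?_) (hall_hyp M B S x Z p w col hS hb hw hsel hv A T J hJ)
  refine Finset.sum_congr rfl fun k _ => ?_
  congr 1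
  ext v
  simp only [Finset.mem_filter]

theorem EXT2a : S_BITS → S_HALL2 → S_EXT2 := by
  intro hb hh M B S cm x p w col hS hl hZ hw hsel hv
  obtain ⟨f, hf1, hf2, hf3, hf4⟩ := appl M B S x (S.zip cm) p w col hS hb hh hw hsel hv
  set Z := S.zip cm with hZd
  have hZ1 : ∀ z ∈ Z, z.2 < p ∧ ∀ y ∈ Z, z.2 = y.2 → adj M z.1 y.1 = false := by
    intro z hz
    unfold okZ at hZ
    rw [List.all_eq_true] at hZ
    have h1 := hZ z hz
    rw [Bool.and_eq_true, decide_eq_true_eq, List.all_eq_true] at h1
    refine ⟨h1.1, fun y hy hyz => ?_⟩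
    have h2 := h1.2 y hy
    simpa [hyz] using h2
  -- the coloring
  let g : Fin p ⊕ ns B p col → ℕ := Sum.elim (fun j => col j) (fun i => (i : ℕ))
  have hginj : ∀ c c', g c = g c' → c = c' := by
    intro c c' hcc
    rcases c with j | i <;> rcases c' with j' | i'
    · exact congrArg Sum.inl (Fin.ext (hsel.2.1 j j.2 j' j'.2 hcc))
    · exact absurd hcc ((Finset.mem_filter.1 i'.2).2 j)
    · exact absurd hcc.symm ((Finset.mem_filter.1 i.2).2 j')
    · exact congrArg Sum.inr (Subtype.ext hcc)
  let φ : ℕ → ℕ := fun v => if h : v ∈ (vs M S).toFinset then g (f ⟨v, h⟩) else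
    col (cls S cm v)
  have hφ1 : ∀ v (h : v ∈ (vs M S).toFinset), φ v = g (f ⟨v, h⟩) := fun v h => dif_pos h
  have hφ2 : ∀ v ∈ S, φ v = col (cls S cm v) := by
    intro v hvS
    refine dif_neg ?_
    rw [List.mem_toFinset, mem_vs]
    exact fun h => h.2 hvS
  have hcase : ∀ v < M.length, v ∈ (vs M S).toFinset ∨ v ∈ S := by
    intro v hvn
    by_cases h : v ∈ S
    · exact Or.inr h
    · left
      rw [List.mem_toFinset, mem_vs]
      exact ⟨hvn, h⟩
  have hcls : ∀ v ∈ S, cls S cm v < p := fun v hvS => (hZ1 _ (zip_cls S cm hl v hvS)).1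
  have hmix : ∀ u ∈ S, ∀ v (h : v ∈ (vs M S).toFinset), adj M u v = true → φ u ≠ φ v := by
    intro u hu v h huv heq
    rw [hφ2 u hu, hφ1 v h] at heq
    have h1 : g (Sum.inl ⟨cls S cm u, hcls u hu⟩) = g (f ⟨v, h⟩) := heq
    have h2 := hf1 _ _ (hginj _ _ h1).symm
    unfold al at h2
    rw [List.all_eq_true] at h2
    have h3 := h2 _ (zip_cls S cm hl u hu)
    simp [huv] at h3
  refine ⟨φ, ?_, ?_, ?_, ?_⟩
  · intro v hvn
    rcases hcase v hvn with h | h
    · rw [hφ1 v h]
      rcases f ⟨v, h⟩ with j | i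
      · exact hsel.1 j j.2
      · exact Finset.mem_range.1 (Finset.mem_filter.1 i.2).1
    · rw [hφ2 v h]
      exact hsel.1 _ (hcls v h)
  · intro u hu v hvn huv
    rcases hcase u hu with h | h <;> rcases hcase v hvn with h' | h'
    · rw [hφ1 u h, hφ1 v h']
      intro heq
      refine hf2 ⟨u, h⟩ ⟨v, h'⟩ (fun he => adj_ne huv (congrArg Subtype.val he)) ?_
        (hginj _ _ heq)
      exact Subtype.ext (rp_eq M S hS u v (List.mem_toFinset.1 h) (List.mem_toFinset.1 h') huv)
    · exact (hmix v h' u h (by rw [adj_comm]; exact huv)).symm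
    · exact hmix u h v h' huv
    · rw [hφ2 u h, hφ2 v h']
      intro heq
      have h1 := hsel.2.1 _ (hcls u h) _ (hcls v h') heq
      have h2 := (hZ1 _ (zip_cls S cm hl u h)).2 _ (zip_cls S cm hl v h') h1
      simp only at h2
      rw [huv] at h2
      exact Bool.noConfusion h2
  · intro i hi
    by_cases hsp : ∃ j : Fin p, col j = i
    · obtain ⟨j, rfl⟩ := hsp
      have h1 : ((Finset.range M.length).filter fun v => φ v = col j) ⊆
          ((Finset.univ.filter fun v => f v = Sum.inl j).image Subtype.val) ∪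
          ((Z.filter fun z => decide (z.2 = (j : ℕ))).map Prod.fst).toFinset := by
        intro v hv1
        rw [Finset.mem_filter, Finset.mem_range] at hv1
        rw [Finset.mem_union]
        rcases hcase v hv1.1 with h | h
        · left
          rw [Finset.mem_image]
          refine ⟨⟨v, h⟩, Finset.mem_filter.2 ⟨Finset.mem_univ _, hginj _ _ ?_⟩, rfl⟩
          rw [← hφ1 v h]
          exact hv1.2
        · right
          rw [List.mem_toFinset, List.mem_map]
          refine ⟨(v, cls S cm v), List.mem_filter.2 ⟨zip_cls S cm hl v h, ?_⟩, rfl⟩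
          rw [decide_eq_true_eq]
          rw [hφ2 v h] at hv1
          exact hsel.2.1 _ (hcls v h) _ j.2 hv1.2
      have h2 : (((Z.filter fun z => decide (z.2 = (j : ℕ))).map Prod.fst).toFinset).card ≤
          siz Z j := by
        refine (List.toFinset_card_le _).trans ?_
        rw [List.length_map]
        exact le_rfl
      have h3 := (Finset.card_le_card h1).trans (Finset.card_union_le _ _)
      have h4 : ((Finset.univ.filter fun v => f v = Sum.inl j).image Subtype.val).card ≤
          x.getD (j : ℕ) 0 - siz Z j := Finset.card_image_le.trans (hf3 j)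
      have h5 := siz_le M B S x Z p w hb hv j j.2
      have h6 := hsel.2.2 j j.2
      have h7 := min_le_left (B.getD (col j) 0) M.length
      omega
    · have hns : i ∈ ns B p col :=
        Finset.mem_filter.2 ⟨Finset.mem_range.2 hi, fun j hj => hsp ⟨j, hj⟩⟩
      have h1 : ((Finset.range M.length).filter fun v => φ v = i) ⊆
          ((Finset.univ.filter fun v => f v = Sum.inr ⟨i, hns⟩).image Subtype.val) := by
        intro v hv1
        rw [Finset.mem_filter, Finset.mem_range] at hv1
        rcases hcase v hv1.1 with h | h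
        · rw [Finset.mem_image]
          refine ⟨⟨v, h⟩, Finset.mem_filter.2 ⟨Finset.mem_univ _, hginj _ _ ?_⟩, rfl⟩
          rw [← hφ1 v h]
          exact hv1.2
        · rw [hφ2 v h] at hv1
          exact absurd ⟨⟨cls S cm v, hcls v h⟩, hv1.2⟩ hsp
      exact (Finset.card_le_card h1).trans (Finset.card_image_le.trans (hf4 ⟨i, hns⟩))
  · intro z hz
    obtain ⟨h1, h2⟩ := cls_zip S cm hl hS.1 z hz
    rw [hφ2 z.1 h1, h2]

theorem EXT2 : S_TOP → S_BITS → S_HALL2 → S_EXT2 := fun _ => EXT2a

end Pool.Agent.H747.CVExt
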