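import Pool.Agent.H979.FC.Stm

/-!
# Project FC (helper979), part BLOCKS
-/

set_option autoImplicit false
set_option linter.all false

open MeasureTheory ProbabilityTheory Finset
open scoped ENNReal NNReal

namespace Pool.Agent.H747

open Pool.Agent.H979.FR Pool.Agent.H979.FC

theorem fc_blocks (hb : S_BLOCK) : S_BLOCKS := by
  intro I _ _ S hS hInc T B
  induction B using Finset.induction_on with
  | empty =>
    intro _ μ a _ _ ν δ _
    apply le_of_eq
    simp only [Finset.notMem_empty, if_false, Finset.sum_empty]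
  | insert γ B hγ ih =>
    intro hT μ a ha hμ ν δ hδ
    have hT' : ∀ γ' ∈ B, ∀ A : I → Bool, Function.update A γ' true ∈ S →
        (fun i => A i || decide (i ∈ T γ')) ∈ S := fun γ' h => hT γ' (Finset.mem_insert_of_mem h)
    have h1 := ih hT' (fun i => μ i + if i = γ then ν γ else 0) a ha
      (fun γ' h i hi => by
        have h2 := hμ γ' (Finset.mem_insert_of_mem h) i hi
        push_cast
        have h3 : (0 : ℝ) ≤ ((if i = γ then ν γ else 0 : ℝ≥0) : ℝ) := NNReal.coe_nonneg _
        push_cast at h3
        linarith) ν δ (fun γ' h => hδ γ' (Finset.mem_insert_of_mem h))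
    have e1 : (fun i => μ i + if i ∈ insert γ B then ν i else 0) =
        fun i => (μ i + if i = γ then ν γ else 0) + if i ∈ B then ν i else 0 := by
      funext i
      by_cases h2 : i = γ
      · subst h2
        rw [if_pos (Finset.mem_insert_self _ _), if_pos rfl, if_neg hγ, add_zero]
      · rw [if_neg h2, add_zero]
        by_cases h3 : i ∈ B
        · rw [if_pos (Finset.mem_insert_of_mem h3), if_pos h3]
        · rw [if_neg h3, if_neg]
          rw [Finset.mem_insert]
          tauto
    rw [e1]
    refine h1.trans ?_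
    have e2 : (fun i => (μ i + if i = γ then ν γ else 0) +
        ∑ γ' ∈ B, if i ∈ T γ' then δ γ' else 0) =
        fun i => (μ i + ∑ γ' ∈ B, if i ∈ T γ' then δ γ' else 0) + if i = γ then ν γ else 0 := by
      funext i
      exact add_right_comm _ _ _
    rw [e2]
    have h2 := hb I S hS hInc γ (T γ) (hT γ (Finset.mem_insert_self _ _))
      (fun i => μ i + ∑ γ' ∈ B, if i ∈ T γ' then δ γ' else 0) a ha
      (fun i hi => by
        have h2 := hμ γ (Finset.mem_insert_self _ _) i hi
        have h3 : (0 : ℝ) ≤ ((∑ γ' ∈ B, if i ∈ T γ' then δ γ' else 0 : ℝ≥0) : ℝ) :=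
          NNReal.coe_nonneg _
        rw [NNReal.coe_add]
        linarith) (ν γ) (δ γ) (hδ γ (Finset.mem_insert_self _ _))
    refine h2.trans (le_of_eq ?_)
    have e3 : (fun i => (μ i + ∑ γ' ∈ B, if i ∈ T γ' then δ γ' else 0) +
        if i ∈ T γ then δ γ else 0) =
        fun i => μ i + ∑ γ' ∈ insert γ B, if i ∈ T γ' then δ γ' else 0 := by
      funext i
      rw [Finset.sum_insert hγ, add_assoc, add_comm (∑ γ' ∈ B, if i ∈ T γ' then δ γ' else 0)]
    rw [e3]

end Pool.Agent.H747
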