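import Pool.Agent.H979.FR.Stm

/-!
# Project FR (helper979), part GROW: growth gap for transitive graphs of superlinear growth
-/

set_option autoImplicit false
set_option linter.all false

namespace Pool.Agent.H747

open Pool.Agent.H979.FR

section

variable {V : Type} {G : SimpleGraph V}

/-- Geodesics. -/
theorem fr_geod (hc : G.Connected) {o y : V} {M : ℕ} (h : G.dist o y = M) :
    ∃ γ : ℕ → V, ∀ i j, i ≤ j → j ≤ M → G.dist (γ i) (γ j) = j - i := by
  obtain ⟨p, hp⟩ := hc.exists_walk_length_eq_dist o y
  have hstep : ∀ i, i < M → G.dist (p.getVert i) (p.getVert (i + 1)) ≤ 1 := by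
    intro i hi
    have h1 := p.adj_getVert_succ (show i < p.length by omega)
    exact (SimpleGraph.dist_eq_one_iff_adj.2 h1).le
  have hub : ∀ k i, i + k ≤ M → G.dist (p.getVert i) (p.getVert (i + k)) ≤ k := by
    intro k
    induction k with
    | zero => intro i _; simp
    | succ k ih =>
      intro i h1
      have h2 := hc.dist_triangle (u := p.getVert i) (v := p.getVert (i + k))
        (w := p.getVert (i + (k + 1)))
      have h3 := ih i (by omega)
      have h4 := hstep (i + k) (by omega)
      rw [add_assoc] at h4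
      omega
  refine ⟨p.getVert, fun i j hij hj => ?_⟩
  have h1 := hub (j - i) i (by omega)
  have h2 := hub i 0 (by omega)
  have h3 := hub (M - j) j (by omega)
  rw [show i + (j - i) = j by omega] at h1
  rw [p.getVert_zero, zero_add] at h2
  rw [show j + (M - j) = p.length by omega, p.getVert_length] at h3
  have h4 := hc.dist_triangle (u := o) (v := p.getVert i) (w := y)
  have h5 := hc.dist_triangle (u := p.getVert i) (v := p.getVert j) (w := y)
  omega

theorem fr_disj (hc : G.Connected) {x y : V} {r : ℕ} (h : 2 * r < G.dist x y) :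
    Disjoint (ball G x r) (ball G y r) := by
  rw [Set.disjoint_left]
  intro z hz hz'
  have h1 := hc.dist_triangle (u := x) (v := z) (w := y)
  have h2 : G.dist x z ≤ r := hz
  have h3 : G.dist y z ≤ r := hz'
  rw [SimpleGraph.dist_comm] at h3
  omega

theorem fr_sub (hc : G.Connected) {x y : V} {r s : ℕ} (h : G.dist x y + r ≤ s) :
    ball G y r ⊆ ball G x s := by
  intro z hz
  have h1 := hc.dist_triangle (u := x) (v := y) (w := z)
  have h2 : G.dist y z ≤ r := hz
  show G.dist x z ≤ s
  omega

theorem fr_four {A B C D E : Set V} (hE : E.Finite) (hA : A ⊆ E) (hB : B ⊆ E) (hC : C ⊆ E)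
    (hD : D ⊆ E) (h1 : Disjoint A B) (h2 : Disjoint A C) (h3 : Disjoint A D) (h4 : Disjoint B C)
    (h5 : Disjoint B D) (h6 : Disjoint C D) :
    A.ncard + B.ncard + C.ncard + D.ncard ≤ E.ncard := by
  have fA := hE.subset hA
  have fB := hE.subset hB
  have fC := hE.subset hC
  have fD := hE.subset hD
  rw [← Set.ncard_union_eq h1 fA fB,
    ← Set.ncard_union_eq (Set.disjoint_union_left.2 ⟨h2, h4⟩) (fA.union fB) fC,
    ← Set.ncard_union_eq (Set.disjoint_union_left.2 ⟨Set.disjoint_union_left.2 ⟨h3, h5⟩, h6⟩)
      ((fA.union fB).union fC) fD]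
  exact Set.ncard_le_ncard
    (Set.union_subset (Set.union_subset (Set.union_subset hA hB) hC) hD) hE

end

/-- **GROW**. -/
theorem fr_grow (hb : S_BALL) : S_GROW := by
  intro V _ G _ hc ht o hlin r
  obtain ⟨hfin, hinf, heq⟩ := hb V G hc
  have heq := heq ht
  by_contra hg
  push Not at hg
  apply hlin
  -- (a)
  have ha : ∀ (N : ℕ) (γ : ℕ → V), (∀ i j, i ≤ j → j ≤ 2 * N → G.dist (γ i) (γ j) = j - i) →
      ∀ i, 2 * r + 1 ≤ i → i + 2 * r + 1 ≤ 2 * N → ∀ y, G.dist (γ i) y ≤ 2 * r + 1 →
      ∃ j ≤ 2 * N, G.dist y (γ j) ≤ 2 * r := by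
    intro N γ hγ i hi1 hi2 y hy
    by_contra hno
    push Not at hno
    have d1 := hγ (i - (2 * r + 1)) i (by omega) (by omega)
    have d2 := hγ i (i + (2 * r + 1)) (by omega) (by omega)
    have d3 := hγ (i - (2 * r + 1)) (i + (2 * r + 1)) (by omega) (by omega)
    have e1 := hno (i - (2 * r + 1)) (by omega)
    have e2 := hno i (by omega)
    have e3 := hno (i + (2 * r + 1)) (by omega)
    have h4 := fr_four (A := ball G (γ (i - (2 * r + 1))) r) (B := ball G (γ i) r)
      (C := ball G (γ (i + (2 * r + 1))) r) (D := ball G y r) (E := ball G (γ i) (3 * r + 1))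
      (hfin _ _)
      (fr_sub hc (by rw [SimpleGraph.dist_comm]; omega))
      (fr_sub hc (by rw [SimpleGraph.dist_self]; omega))
      (fr_sub hc (by omega))
      (fr_sub hc (by omega))
      (fr_disj hc (by omega)) (fr_disj hc (by omega))
      (fr_disj hc (by rw [SimpleGraph.dist_comm]; omega)) (fr_disj hc (by omega))
      (fr_disj hc (by rw [SimpleGraph.dist_comm]; omega))
      (fr_disj hc (by rw [SimpleGraph.dist_comm]; omega))
    rw [heq _ o r, heq (γ i) o r, heq (γ (i + (2 * r + 1))) o r, heq y o r,
      heq (γ i) o (3 * r + 1)] at h4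
    omega
  -- (b)
  have hbb : ∀ n : ℕ, (ball G o n).ncard ≤ (2 * (n + 4 * r + 2) + 1) * (ball G o (2 * r)).ncard := by
    intro n
    obtain ⟨y0, hy0⟩ := (hinf ‹_› o (2 * (n + 4 * r + 2))).1
    obtain ⟨γ, hγ⟩ := fr_geod hc hy0
    have hcov : ∀ y, G.dist (γ (n + 4 * r + 2)) y ≤ n →
        ∃ j ≤ 2 * (n + 4 * r + 2), G.dist y (γ j) ≤ 2 * r := by
      intro y hy
      obtain ⟨p, hp⟩ := hc.exists_walk_length_eq_dist (γ (n + 4 * r + 2)) y
      have hstep : ∀ k, k < p.length → G.dist (p.getVert (k + 1)) (p.getVert k) ≤ 1 := by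
        intro k hk
        have h1 := p.adj_getVert_succ hk
        rw [SimpleGraph.dist_comm]
        exact (SimpleGraph.dist_eq_one_iff_adj.2 h1).le
      have hd : ∀ k, k ≤ p.length → G.dist (p.getVert k) (γ (n + 4 * r + 2)) ≤ k := by
        intro k
        induction k with
        | zero => intro _; rw [p.getVert_zero, SimpleGraph.dist_self]
        | succ k ih =>
          intro h1
          have h2 := hc.dist_triangle (u := p.getVert (k + 1)) (v := p.getVert k)
            (w := γ (n + 4 * r + 2))
          have h3 := ih (by omega)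
          have h4 := hstep k (by omega)
          omega
      have hP : ∀ k, k ≤ p.length →
          ∃ j ≤ 2 * (n + 4 * r + 2), G.dist (p.getVert k) (γ j) ≤ 2 * r := by
        intro k
        induction k with
        | zero =>
          intro _
          refine ⟨n + 4 * r + 2, by omega, ?_⟩
          rw [p.getVert_zero, SimpleGraph.dist_self]
          omega
        | succ k ih =>
          intro h1
          obtain ⟨j, hj, h2⟩ := ih (by omega)
          have h3 := hc.dist_triangle (u := p.getVert (k + 1)) (v := p.getVert k) (w := γ j)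
          have h4 := hstep k (by omega)
          have h5 := hd (k + 1) h1
          have h6 : G.dist (γ j) (γ (n + 4 * r + 2)) ≤ 2 * r + 1 + n := by
            have h7 := hc.dist_triangle (u := γ j) (v := p.getVert (k + 1))
              (w := γ (n + 4 * r + 2))
            have h8 := SimpleGraph.dist_comm (G := G) (u := γ j) (v := p.getVert (k + 1))
            omega
          have h9 : 2 * r + 1 ≤ j ∧ j + 2 * r + 1 ≤ 2 * (n + 4 * r + 2) := by
            rcases le_total j (n + 4 * r + 2) with h10 | h10
            · have h11 := hγ j (n + 4 * r + 2) h10 (by omega)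
              omega
            · have h11 := hγ (n + 4 * r + 2) j h10 hj
              rw [SimpleGraph.dist_comm] at h11
              omega
          refine ha (n + 4 * r + 2) γ hγ j h9.1 h9.2 (p.getVert (k + 1)) ?_
          have h8 := SimpleGraph.dist_comm (G := G) (u := γ j) (v := p.getVert (k + 1))
          omega
      have h1 := hP p.length le_rfl
      rwa [p.getVert_length] at h1
    classical
    have h1 : (hfin (γ (n + 4 * r + 2)) n).toFinset ⊆
        (Finset.range (2 * (n + 4 * r + 2) + 1)).biUnion fun j => (hfin (γ j) (2 * r)).toFinset := by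
      intro y hy
      rw [Set.Finite.mem_toFinset] at hy
      obtain ⟨j, hj, h2⟩ := hcov y hy
      rw [Finset.mem_biUnion]
      refine ⟨j, Finset.mem_range.2 (by omega), ?_⟩
      rw [Set.Finite.mem_toFinset]
      show G.dist (γ j) y ≤ 2 * r
      rwa [SimpleGraph.dist_comm]
    have h2 := (Finset.card_le_card h1).trans (Finset.card_biUnion_le_card_mul _ _
      ((ball G o (2 * r)).ncard) fun j _ => by
        rw [← Set.ncard_eq_toFinset_card _ (hfin (γ j) (2 * r)), heq (γ j) o])
    rwa [← Set.ncard_eq_toFinset_card _ (hfin (γ (n + 4 * r + 2)) n), heq _ o,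
      Finset.card_range] at h2
  refine ⟨((8 * r + 7 : ℕ) : ℝ) * ((ball G o (2 * r)).ncard : ℝ), fun n hn => ?_⟩
  have h1 : (ball G o n).ncard ≤ (8 * r + 7) * (ball G o (2 * r)).ncard * n := by
    refine (hbb n).trans ?_
    have h2 : 2 * (n + 4 * r + 2) + 1 ≤ (8 * r + 7) * n := by nlinarith
    calc (2 * (n + 4 * r + 2) + 1) * (ball G o (2 * r)).ncard
        ≤ (8 * r + 7) * n * (ball G o (2 * r)).ncard := Nat.mul_le_mul_right _ h2
      _ = (8 * r + 7) * (ball G o (2 * r)).ncard * n := by ring
  exact_mod_cast h1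

end Pool.Agent.H747
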