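import Pool.Agent.H812.Gi.Spec

/-!
# GI G_SLIDE: sliding along a leaf (helper747, for helper812)
-/

set_option autoImplicit false

open Real Filter Topology Set MeasureTheory

namespace Pool.Agent.H747.GiSlide

open Pool.Agent.W811.Stu Pool.Agent.H812.Tm Pool.Agent.W811.Dos Pool.Agent.H812.Gi

theorem orb_vc (δ : ℝ) (d : ℕ → ℕ) (n M : ℕ) (v : ℝ × ℝ) (t : ℝ) :
    (orb d (vc δ d n v t) (n + M)).y = Yf δ (shd d n) M (v.1, t) := by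
  unfold vc Yf
  rw [orb_add, orb_borb]
  rfl

theorem ZM_vc (δ : ℝ) (d : ℕ → ℕ) (n M : ℕ) (v : ℝ × ℝ) (t : ℝ) :
    ZM d (n + M) (vc δ d n v) t ↔ Yf δ (shd d n) M (v.1, t) = 0 := by
  unfold ZM
  rw [orb_vc]

theorem small (K ε : ℝ) (hε : 0 < ε) : ∃ M0 : ℕ, ∀ M ≥ M0, K * (1 / 2 ^ (M / 2)) < ε := by
  have h1 : Tendsto (fun k : ℕ => K * ((1 / 2 : ℝ) ^ k)) atTop (𝓝 (K * 0)) :=
    (tendsto_pow_atTop_nhds_zero_of_lt_one (by norm_num) (by norm_num)).const_mul K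
  rw [mul_zero] at h1
  obtain ⟨k0, hk0⟩ := (h1.eventually (gt_mem_nhds hε)).exists_forall_of_atTop
  refine ⟨2 * k0, fun M hM => ?_⟩
  have := hk0 (M / 2) (by omega)
  rwa [one_div_pow] at this

theorem tSLIDE (hG : GLevels) : GSlide := by
  intro δ κ θ d hC n ψ hψ z z' hz hz'
  have hC' : Cx δ κ θ (shd d n) := ⟨hC.hδ, hC.hκ1, hC.hκ, hC.hθ, fun k => hC.hd (n + k)⟩
  obtain ⟨G1, G2⟩ := hG δ κ θ (shd d n) hC'
  obtain ⟨K, hK, G3, G4, _⟩ := G2 (max |z| |z'|) (max_lt hz hz')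
  refine ⟨K, hK, ?_⟩
  intro ε hε
  obtain ⟨M1, hM1⟩ := small K (ε / 2) (by positivity)
  refine ⟨ε / (2 * K), by positivity, n + M1 + 3, ?_⟩
  intro M' hM'
  obtain ⟨M, rfl⟩ : ∃ M, M' = n + M := ⟨M' - n, by omega⟩
  have hM3 : 3 ≤ M := by omega
  have hM1' : M1 ≤ M := by omega
  -- choice of the zero curves
  have hch : ∀ s : ℝ, ∃ ϑ : ℝ → ℝ, Yf δ (shd d n) M (z, s) = 0 → ϑ z = s ∧ Lev δ (shd d n) M ϑ := by
    intro s
    by_cases h : Yf δ (shd d n) M (z, s) = 0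
    · obtain ⟨ϑ, h1, h2⟩ := G1 M hM3 (z, s) hz h
      exact ⟨ϑ, fun _ => ⟨h1, h2⟩⟩
    · exact ⟨fun _ => 0, fun h' => absurd h' h⟩
  choose Θ hΘ using hch
  refine ⟨fun s => Θ s z', ?_⟩
  intro s hs hZ
  rw [ZM_vc] at hZ
  obtain ⟨h1, h2⟩ := hΘ s hZ
  refine ⟨?_, ?_, ?_⟩
  · have h3 := G4 M hM3 (Θ s) ψ h2 hψ z' z (le_max_right _ _) (le_max_left _ _)
    rw [h1] at h3
    have h4 := hM1 M hM1'
    have h5 : K * |s - ψ z| < ε / 2 := by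
      have : K * |s - ψ z| < K * (ε / (2 * K)) := mul_lt_mul_of_pos_left hs hK
      have e : K * (ε / (2 * K)) = ε / 2 := by field_simp
      linarith
    calc |Θ s z' - ψ z'| ≤ K * (|s - ψ z| + 1 / 2 ^ (M / 2)) := h3
      _ = K * |s - ψ z| + K * (1 / 2 ^ (M / 2)) := by ring
      _ < ε := by linarith
  · rw [ZM_vc]
    exact (h2 z' hz').2
  · intro s' hs' hZ'
    rw [ZM_vc] at hZ'
    obtain ⟨h1', h2'⟩ := hΘ s' hZ'
    have h3 := G3 M hM3 (Θ s') (Θ s) h2' h2 z z' (le_max_left _ _) (le_max_right _ _)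
    rw [h1, h1'] at h3
    exact h3

end Pool.Agent.H747.GiSlide
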