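import Pool.Agent.H691.Q2.Stm

/-!
# Max-min area triangulations: the lifted family has no proper crossings
-/

set_option autoImplicit false

namespace Pool.Agent.H747.Q2P2b

open Pool.Agent.W982.TA Pool.Agent.H691.Q2

theorem between2 {p q r : Pt} (h : dt p q r = 0) (h2 : (p.2 - r.2) * (q.2 - r.2) < 0) :
    emb r ∈ oseg p q := by
  have hne : (q.2 : ℝ) - p.2 ≠ 0 := by
    intro h0
    have : (q.2 : ℝ) = p.2 := by linarith
    have h1 : q.2 = p.2 := by exact_mod_cast this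
    rw [h1] at h2
    nlinarith [mul_self_nonneg (p.2 - r.2)]
  have h2r : ((p.2 : ℝ) - r.2) * (q.2 - r.2) < 0 := by exact_mod_cast h2
  have hr : ((q.1 : ℝ) - p.1) * (r.2 - p.2) - (q.2 - p.2) * (r.1 - p.1) = 0 := by
    have : (((q.1 - p.1) * (r.2 - p.2) - (q.2 - p.2) * (r.1 - p.1) : ℤ) : ℝ) = 0 := by
      have h' := h
      unfold dt at h'
      rw [h']
      simp
    push_cast at this
    exact this
  refine ⟨((q.2 : ℝ) - r.2) / (q.2 - p.2), ((r.2 : ℝ) - p.2) / (q.2 - p.2), ?_, ?_, ?_, ?_⟩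
  · rcases mul_neg_iff.1 h2r with ⟨h3, h4⟩ | ⟨h3, h4⟩
    · exact div_pos_of_neg_of_neg h4 (by linarith)
    · exact div_pos h4 (by linarith)
  · rcases mul_neg_iff.1 h2r with ⟨h3, h4⟩ | ⟨h3, h4⟩
    · exact div_pos_of_neg_of_neg (by linarith) (by linarith)
    · exact div_pos (by linarith) (by linarith)
  · field_simp
    ring
  · simp only [emb, Prod.smul_mk, smul_eq_mul, Prod.mk_add_mk, Prod.mk.injEq]
    constructor
    · field_simp
      linarith
    · field_simp
      ring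

theorem between1 {p q r : Pt} (h : dt p q r = 0) (h2 : (p.1 - r.1) * (q.1 - r.1) < 0) :
    emb r ∈ oseg p q := by
  have hne : (q.1 : ℝ) - p.1 ≠ 0 := by
    intro h0
    have : (q.1 : ℝ) = p.1 := by linarith
    have h1 : q.1 = p.1 := by exact_mod_cast this
    rw [h1] at h2
    nlinarith [mul_self_nonneg (p.1 - r.1)]
  have h2r : ((p.1 : ℝ) - r.1) * (q.1 - r.1) < 0 := by exact_mod_cast h2
  have hr : ((q.1 : ℝ) - p.1) * (r.2 - p.2) - (q.2 - p.2) * (r.1 - p.1) = 0 := by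
    have : (((q.1 - p.1) * (r.2 - p.2) - (q.2 - p.2) * (r.1 - p.1) : ℤ) : ℝ) = 0 := by
      have h' := h
      unfold dt at h'
      rw [h']
      simp
    push_cast at this
    exact this
  refine ⟨((q.1 : ℝ) - r.1) / (q.1 - p.1), ((r.1 : ℝ) - p.1) / (q.1 - p.1), ?_, ?_, ?_, ?_⟩
  · rcases mul_neg_iff.1 h2r with ⟨h3, h4⟩ | ⟨h3, h4⟩
    · exact div_pos_of_neg_of_neg h4 (by linarith)
    · exact div_pos h4 (by linarith)
  · rcases mul_neg_iff.1 h2r with ⟨h3, h4⟩ | ⟨h3, h4⟩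
    · exact div_pos_of_neg_of_neg (by linarith) (by linarith)
    · exact div_pos (by linarith) (by linarith)
  · field_simp
    ring
  · simp only [emb, Prod.smul_mk, smul_eq_mul, Prod.mk_add_mk, Prod.mk.injEq]
    constructor
    · field_simp
      ring
    · field_simp
      linarith

theorem dt_swap (a b c : Pt) : dt b a c = -dt a b c := by
  simp only [dt]
  ring

/-- symmetries of proper crossings -/
theorem pc_swap1 {P Q P' Q' : Pt} (h : PCross P Q P' Q') : PCross Q P P' Q' := by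
  obtain ⟨h1, h2⟩ := h
  refine ⟨?_, ?_⟩
  · rw [dt_swap P Q P', dt_swap P Q Q']
    linarith [neg_mul_neg (dt P Q P') (dt P Q Q')]
  · rw [mul_comm]
    exact h2

theorem pc_swap2 {P Q P' Q' : Pt} (h : PCross P Q P' Q') : PCross P' Q' P Q := ⟨h.2, h.1⟩

theorem pc_swap3 {P Q P' Q' : Pt} (h : PCross P Q P' Q') : PCross P Q Q' P' :=
  pc_swap2 (pc_swap1 (pc_swap2 h))

/-- segments separated by a horizontal line do not cross -/
theorem sep {P Q P' Q' : Pt} {t : ℤ} (h : PCross P Q P' Q') (h1 : P.2 ≤ t) (h2 : Q.2 ≤ t)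
    (h3 : t ≤ P'.2) (h4 : t ≤ Q'.2) : False := by
  obtain ⟨c1, c2⟩ := h
  have id1 : -dt P' Q' Q * (P.2 - t) + dt P' Q' P * (Q.2 - t) =
      dt P Q Q' * (P'.2 - t) - dt P Q P' * (Q'.2 - t) := by
    simp only [dt]
    ring
  have id2 : dt P Q Q' - dt P Q P' = dt P' Q' P - dt P' Q' Q := by
    simp only [dt]
    ring
  have key : P.2 = t → Q.2 = t → P'.2 = t → False := by
    intro e1 e2 e3
    have : dt P Q P' = 0 := by
      simp only [dt, e1, e2, e3]
      ring
    rw [this] at c1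
    simp at c1
  rcases mul_neg_iff.1 c1 with ⟨a1, a2⟩ | ⟨a1, a2⟩ <;>
    rcases mul_neg_iff.1 c2 with ⟨b1, b2⟩ | ⟨b1, b2⟩
  · omega
  · have t1 : 0 ≤ (-dt P' Q' P) * (t - Q.2) := mul_nonneg (by omega) (by omega)
    have t1' : 0 ≤ dt P' Q' Q * (t - P.2) := mul_nonneg (by omega) (by omega)
    have t2 : 0 ≤ (-dt P Q Q') * (P'.2 - t) := mul_nonneg (by omega) (by omega)
    have t3 : 0 ≤ (dt P Q P') * (Q'.2 - t) := mul_nonneg (by omega) (by omega)
    have s1 : (-dt P' Q' P) * (t - Q.2) = 0 := by linarith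
    have s2 : dt P' Q' Q * (t - P.2) = 0 := by linarith
    have s3 : (-dt P Q Q') * (P'.2 - t) = 0 := by linarith
    refine key ?_ ?_ ?_
    · rcases mul_eq_zero.1 s2 with h | h <;> omega
    · rcases mul_eq_zero.1 s1 with h | h <;> omega
    · rcases mul_eq_zero.1 s3 with h | h <;> omega
  · have t1 : 0 ≤ (dt P' Q' P) * (t - Q.2) := mul_nonneg (by omega) (by omega)
    have t1' : 0 ≤ (-dt P' Q' Q) * (t - P.2) := mul_nonneg (by omega) (by omega)
    have t2 : 0 ≤ (dt P Q Q') * (P'.2 - t) := mul_nonneg (by omega) (by omega)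
    have t3 : 0 ≤ (-dt P Q P') * (Q'.2 - t) := mul_nonneg (by omega) (by omega)
    have s1 : (dt P' Q' P) * (t - Q.2) = 0 := by linarith
    have s2 : (-dt P' Q' Q) * (t - P.2) = 0 := by linarith
    have s3 : (dt P Q Q') * (P'.2 - t) = 0 := by linarith
    refine key ?_ ?_ ?_
    · rcases mul_eq_zero.1 s2 with h | h <;> omega
    · rcases mul_eq_zero.1 s1 with h | h <;> omega
    · rcases mul_eq_zero.1 s3 with h | h <;> omega
  · omega

/-- separated the other way -/
theorem sep' {P Q P' Q' : Pt} {t : ℤ} (h : PCross P Q P' Q') (h1 : t ≤ P.2) (h2 : t ≤ Q.2)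
    (h3 : P'.2 ≤ t) (h4 : Q'.2 ≤ t) : False := sep (pc_swap2 h) h3 h4 h1 h2

/-- representation of the segments that are not short pairs -/
structure Rep (W : Finset Pt) (f : Pt → Bool → Pt) (Ts : Set (Sym2 Pt)) (p q : Pt)
    (a b : ℤ) : Prop where
  mem : s(p, q) ∈ Ts
  a01 : a = 0 ∨ a = 1
  b01 : b = 0 ∨ b = 1
  a1 : a = 1 → p ∈ W ∧ (ToRight (f p true) (f p false) (q - p) ∨ ∃ s, q - p = f p s)
  a0 : a = 0 → p ∉ W ∨ ¬ ToRight (f p true) (f p false) (q - p)
  b1 : b = 1 → q ∈ W ∧ (ToRight (f q true) (f q false) (p - q) ∨ ∃ s, p - q = f q s)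
  b0 : b = 0 → q ∉ W ∨ ¬ ToRight (f q true) (f q false) (p - q)
  dd : p ∈ W → q ∈ W → a = dl W f p q ∧ b = dl W f q p

theorem Rep.symm {W : Finset Pt} {f : Pt → Bool → Pt} {Ts : Set (Sym2 Pt)} {p q : Pt}
    {a b : ℤ} (h : Rep W f Ts p q a b) : Rep W f Ts q p b a :=
  ⟨by rw [Sym2.eq_swap]; exact h.mem, h.b01, h.a01, h.b1, h.b0, h.a1, h.a0,
    fun h1 h2 => ⟨(h.dd h2 h1).2, (h.dd h2 h1).1⟩⟩

theorem dl_01 (W : Finset Pt) (f : Pt → Bool → Pt) (p q : Pt) :
    dl W f p q = 0 ∨ dl W f p q = 1 := by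
  unfold dl
  split_ifs <;> simp

theorem dl_1 {W : Finset Pt} {f : Pt → Bool → Pt} {p q : Pt} (h : dl W f p q = 1) :
    p ∈ W ∧ ToRight (f p true) (f p false) (q - p) := by
  unfold dl at h
  split_ifs at h with h1
  · exact h1
  · simp at h

theorem dl_0 {W : Finset Pt} {f : Pt → Bool → Pt} {p q : Pt} (h : dl W f p q = 0) :
    p ∉ W ∨ ¬ ToRight (f p true) (f p false) (q - p) := by
  by_contra hc
  push Not at hc
  unfold dl at h
  rw [if_pos hc] at h
  exact absurd h one_ne_zero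

theorem fam_cases {X Y N : ℤ} {W : Finset Pt} {f : Pt → Bool → Pt} {Ts : Set (Sym2 Pt)}
    (hL : Lft X Y W f Ts) {P Q : Pt} (h : s(P, Q) ∈ Fam N W f Ts) :
    (∃ w ∈ W, (P = sp N w 0 ∧ Q = sp N w 1) ∨ (P = sp N w 1 ∧ Q = sp N w 0)) ∨
    ∃ p q a b, Rep W f Ts p q a b ∧ P = sp N p a ∧ Q = sp N q b := by
  rcases h with ⟨p, q, h1, h2⟩ | ⟨w, h1, h2⟩ | ⟨w, h1, s, h2⟩
  · right
    have R : Rep W f Ts p q (dl W f p q) (dl W f q p) :=
      ⟨h1, dl_01 _ _ _ _, dl_01 _ _ _ _, fun h => ⟨(dl_1 h).1, Or.inl (dl_1 h).2⟩,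
        fun h => dl_0 h, fun h => ⟨(dl_1 h).1, Or.inl (dl_1 h).2⟩, fun h => dl_0 h,
        fun _ _ => ⟨rfl, rfl⟩⟩
    rcases Sym2.eq_iff.1 h2 with ⟨e1, e2⟩ | ⟨e1, e2⟩
    · exact ⟨p, q, _, _, R, e1, e2⟩
    · exact ⟨q, p, _, _, R.symm, e1, e2⟩
  · left
    rcases Sym2.eq_iff.1 h2 with ⟨e1, e2⟩ | ⟨e1, e2⟩
    · exact ⟨w, h1, Or.inl ⟨e1, e2⟩⟩
    · exact ⟨w, h1, Or.inr ⟨e1, e2⟩⟩
  · right
    have hout := hL.out w h1 s
    have R : Rep W f Ts w (w + f w s) 1 0 :=
      ⟨hL.sub w h1 s, Or.inr rfl, Or.inl rfl, fun _ => ⟨h1, Or.inr ⟨s, by simp⟩⟩,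
        fun h => by simp at h, fun h => by simp at h, fun _ => Or.inl hout,
        fun _ h => absurd h hout⟩
    rcases Sym2.eq_iff.1 h2 with ⟨e1, e2⟩ | ⟨e1, e2⟩
    · exact ⟨w, _, _, _, R, e1, e2⟩
    · exact ⟨_, w, _, _, R.symm, e1, e2⟩

section

variable {X Y N : ℤ} {W : Finset Pt} {f : Pt → Bool → Pt} {Ts : Set (Sym2 Pt)}

theorem noin (hL : Lft X Y W f Ts) {p q r : Pt} (h : s(p, q) ∈ Ts) (hr : r ∈ box X Y)
    (h0 : dt p q r = 0) : 0 ≤ (p.1 - r.1) * (q.1 - r.1) ∧ 0 ≤ (p.2 - r.2) * (q.2 - r.2) := by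
  have hs := (hL.tri.seg p q h).2.2.2 r hr
  constructor
  · by_contra hc
    push Not at hc
    exact hs (between1 h0 hc)
  · by_contra hc
    push Not at hc
    exact hs (between2 h0 hc)

theorem Rep.p_mem (hL : Lft X Y W f Ts) {p q : Pt} {a b : ℤ} (h : Rep W f Ts p q a b) :
    p ∈ box X Y := (hL.tri.seg p q h.mem).1

theorem Rep.q_mem (hL : Lft X Y W f Ts) {p q : Pt} {a b : ℤ} (h : Rep W f Ts p q a b) :
    q ∈ box X Y := (hL.tri.seg p q h.mem).2.1

theorem Rep.ne (hL : Lft X Y W f Ts) {p q : Pt} {a b : ℤ} (h : Rep W f Ts p q a b) :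
    p ≠ q := (hL.tri.seg p q h.mem).2.2.1

/-- pair edge against another edge -/
theorem pair_rep (hP : Par X Y N W) (hL : Lft X Y W f Ts) {w p q : Pt} {a b : ℤ} (hw : w ∈ W)
    (h : Rep W f Ts p q a b) (hc : PCross (sp N w 0) (sp N w 1) (sp N p a) (sp N q b)) :
    False := by
  obtain ⟨c1, c2⟩ := hc
  have e1 : dt (sp N w 0) (sp N w 1) (sp N p a) = N * (p.2 - w.2) := by
    simp only [dt, sp]; ring
  have e2 : dt (sp N w 0) (sp N w 1) (sp N q b) = N * (q.2 - w.2) := by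
    simp only [dt, sp]; ring
  rw [e1, e2] at c1
  have hN : 0 < N := by have := hP.N0; have := hP.Y0; omega
  have c3 : (p.2 - w.2) * (q.2 - w.2) < 0 := by
    by_contra hc
    push Not at hc
    have : 0 ≤ N ^ 2 * ((p.2 - w.2) * (q.2 - w.2)) := mul_nonneg (sq_nonneg N) hc
    have e : N * (p.2 - w.2) * (N * (q.2 - w.2)) = N ^ 2 * ((p.2 - w.2) * (q.2 - w.2)) := by ring
    omega
  have hwb : w ∈ box X Y := ibox_box (hP.W0 hw)
  have ha := h.a01
  have hb := h.b01
  rcases lt_trichotomy (dt p q w) 0 with h0 | h0 | h0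
  · have f1 := dt_sp_neg hP.N0 hP.Y0 (h.p_mem hL) (h.q_mem hL) hwb (α := a) (β := b) (γ := 0)
      (by omega) (by omega) (by omega) (by omega) (by omega) (by omega) h0
    have f2 := dt_sp_neg hP.N0 hP.Y0 (h.p_mem hL) (h.q_mem hL) hwb (α := a) (β := b) (γ := 1)
      (by omega) (by omega) (by omega) (by omega) (by omega) (by omega) h0
    have := mul_pos_of_neg_of_neg (a := dt (sp N p a) (sp N q b) (sp N w 0))
      (b := dt (sp N p a) (sp N q b) (sp N w 1)) (by omega) (by omega)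
    omega
  · have := (noin hL h.mem hwb h0).2
    omega
  · have f1 := dt_sp_pos hP.N0 hP.Y0 (h.p_mem hL) (h.q_mem hL) hwb (α := a) (β := b) (γ := 0)
      (by omega) (by omega) (by omega) (by omega) (by omega) (by omega) h0
    have f2 := dt_sp_pos hP.N0 hP.Y0 (h.p_mem hL) (h.q_mem hL) hwb (α := a) (β := b) (γ := 1)
      (by omega) (by omega) (by omega) (by omega) (by omega) (by omega) h0
    have := mul_pos (a := dt (sp N p a) (sp N q b) (sp N w 0))
      (b := dt (sp N p a) (sp N q b) (sp N w 1)) (by omega) (by omega)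
    omega

theorem pair_pair {w w' : Pt}
    (hc : PCross (sp N w 0) (sp N w 1) (sp N w' 0) (sp N w' 1)) : False := by
  obtain ⟨c1, c2⟩ := hc
  have e1 : dt (sp N w 0) (sp N w 1) (sp N w' 0) = N * (w'.2 - w.2) := by
    simp only [dt, sp]; ring
  have e2 : dt (sp N w 0) (sp N w 1) (sp N w' 1) = N * (w'.2 - w.2) := by
    simp only [dt, sp]; ring
  rw [e1, e2] at c1
  nlinarith [mul_self_nonneg (N * (w'.2 - w.2))]

/-- a shared endpoint -/
theorem shared {A B B' : Pt} (hc : PCross A B A B') : False := by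
  obtain ⟨c1, c2⟩ := hc
  have : dt A B A = 0 := by simp only [dt]; ring
  rw [this] at c1
  simp at c1

/-- the sign of the doubled area persists -/
theorem persist (hP : Par X Y N W) {p q r : Pt} {a b c : ℤ} (ha : a = 0 ∨ a = 1)
    (hb : b = 0 ∨ b = 1) (hc : c = 0 ∨ c = 1) (hp : p ∈ box X Y) (hq : q ∈ box X Y)
    (hr : r ∈ box X Y) : (0 < dt p q r → 0 < dt (sp N p a) (sp N q b) (sp N r c)) ∧
      (dt p q r < 0 → dt (sp N p a) (sp N q b) (sp N r c) < 0) := by
  have := hP.N0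
  have := hP.Y0
  constructor
  · intro h
    have := dt_sp_pos hP.N0 hP.Y0 hp hq hr (α := a) (β := b) (γ := c)
      (by omega) (by omega) (by omega) (by omega) (by omega) (by omega) h
    omega
  · intro h
    have := dt_sp_neg hP.N0 hP.Y0 hp hq hr (α := a) (β := b) (γ := c)
      (by omega) (by omega) (by omega) (by omega) (by omega) (by omega) h
    omega

/-- products -/
theorem persist_mul (hP : Par X Y N W) {p q r r' : Pt} {a b c c' : ℤ} (ha : a = 0 ∨ a = 1)
    (hb : b = 0 ∨ b = 1) (hc : c = 0 ∨ c = 1) (hc' : c' = 0 ∨ c' = 1) (hp : p ∈ box X Y)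
    (hq : q ∈ box X Y) (hr : r ∈ box X Y) (hr' : r' ∈ box X Y) (h1 : dt p q r ≠ 0)
    (h2 : dt p q r' ≠ 0)
    (h : dt (sp N p a) (sp N q b) (sp N r c) * dt (sp N p a) (sp N q b) (sp N r' c') < 0) :
    dt p q r * dt p q r' < 0 := by
  have p1 := persist hP ha hb hc hp hq hr
  have p2 := persist hP ha hb hc' hp hq hr'
  rcases lt_or_gt_of_ne h1 with h1 | h1 <;> rcases lt_or_gt_of_ne h2 with h2 | h2
  · have := mul_pos_of_neg_of_neg (p1.2 h1) (p2.2 h2)
    omega
  · exact mul_neg_of_neg_of_pos h1 h2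
  · exact mul_neg_of_pos_of_neg h1 h2
  · have := mul_pos (p1.1 h1) (p2.1 h2)
    omega

/-- collinear case of edges without common endpoint or with one: the heights are separated -/
theorem heights (hL : Lft X Y W f Ts) {p q p' q' : Pt} (h : s(p, q) ∈ Ts) (h' : s(p', q') ∈ Ts)
    (hne : s(p, q) ≠ s(p', q')) (e1 : dt p q p' = 0) (e2 : dt p q q' = 0)
    (e3 : dt p' q' p = 0) (e4 : dt p' q' q = 0) :
    ∃ t : ℤ, (p.2 ≤ t ∧ q.2 ≤ t ∧ t ≤ p'.2 ∧ t ≤ q'.2) ∨
      (t ≤ p.2 ∧ t ≤ q.2 ∧ p'.2 ≤ t ∧ q'.2 ≤ t) := by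
  have hs := hL.tri.seg p q h
  have hs' := hL.tri.seg p' q' h'
  have n1 := (noin hL h hs'.1 e1).2
  have n2 := (noin hL h hs'.2.1 e2).2
  have n3 := (noin hL h' hs.1 e3).2
  have n4 := (noin hL h' hs.2.1 e4).2
  have hpq := hs.2.2.1
  have hpq' := hs'.2.2.1
  -- horizontal case
  by_cases hh : p.2 = q.2
  · have hx : q.1 - p.1 ≠ 0 := by
      intro h0
      exact hpq (Prod.ext (by omega) hh)
    have e1' := e1
    have e2' := e2
    simp only [dt, hh, sub_self, zero_mul, sub_zero, mul_eq_zero] at e1' e2'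
    have : p'.2 = q.2 := by
      rcases e1' with h | h
      · exact absurd h hx
      · omega
    have : q'.2 = q.2 := by
      rcases e2' with h | h
      · exact absurd h hx
      · omega
    exact ⟨q.2, Or.inl (by omega)⟩
  have hh' : p'.2 ≠ q'.2 := by
    intro hh'
    have hx : q'.1 - p'.1 ≠ 0 := by
      intro h0
      exact hpq' (Prod.ext (by omega) hh')
    have e1' := e3
    have e2' := e4
    simp only [dt, hh', sub_self, zero_mul, sub_zero, mul_eq_zero] at e1' e2'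
    have : p.2 = q'.2 := by
      rcases e1' with h | h
      · exact absurd h hx
      · omega
    have : q.2 = q'.2 := by
      rcases e2' with h | h
      · exact absurd h hx
      · omega
    omega
  -- the point on the line is determined by its height
  have det : ∀ r : Pt, dt p q r = 0 → r.2 = p.2 → r = p := by
    intro r h0 h2
    simp only [dt, h2, sub_self, mul_zero, zero_sub, neg_eq_zero, mul_eq_zero] at h0
    rcases h0 with h | h
    · omega
    · exact Prod.ext (by omega) h2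
  have det' : ∀ r : Pt, dt p q r = 0 → r.2 = q.2 → r = q := by
    intro r h0 h2
    have h0' : dt p q r = (q.2 - p.2) * (q.1 - r.1) := by
      simp only [dt, h2]
      ring
    rw [h0', mul_eq_zero] at h0
    rcases h0 with h | h
    · omega
    · exact Prod.ext (by omega) h2
  -- positions
  have pos : ∀ r : Pt, 0 ≤ (p.2 - r.2) * (q.2 - r.2) →
      (r.2 ≤ p.2 ∧ r.2 ≤ q.2) ∨ (p.2 ≤ r.2 ∧ q.2 ≤ r.2) := by
    intro r hr
    by_contra hc
    have : (p.2 < r.2 ∧ r.2 < q.2) ∨ (q.2 < r.2 ∧ r.2 < p.2) := by omega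
    rcases this with ⟨a, b⟩ | ⟨a, b⟩
    · have := mul_neg_of_neg_of_pos (a := p.2 - r.2) (b := q.2 - r.2) (by omega) (by omega)
      omega
    · have := mul_neg_of_pos_of_neg (a := p.2 - r.2) (b := q.2 - r.2) (by omega) (by omega)
      omega
  have pos' : ∀ r : Pt, 0 ≤ (p'.2 - r.2) * (q'.2 - r.2) →
      (r.2 ≤ p'.2 ∧ r.2 ≤ q'.2) ∨ (p'.2 ≤ r.2 ∧ q'.2 ≤ r.2) := by
    intro r hr
    by_contra hc
    have : (p'.2 < r.2 ∧ r.2 < q'.2) ∨ (q'.2 < r.2 ∧ r.2 < p'.2) := by omega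
    rcases this with ⟨a, b⟩ | ⟨a, b⟩
    · have := mul_neg_of_neg_of_pos (a := p'.2 - r.2) (b := q'.2 - r.2) (by omega) (by omega)
      omega
    · have := mul_neg_of_pos_of_neg (a := p'.2 - r.2) (b := q'.2 - r.2) (by omega) (by omega)
      omega
  have o1 := pos p' n1
  have o2 := pos q' n2
  have o3 := pos' p n3
  have o4 := pos' q n4
  have ex1 : ¬ (p'.2 = p.2 ∧ q'.2 = q.2) := by
    rintro ⟨x, y⟩
    exact hne (by rw [det p' e1 x, det' q' e2 y])
  have ex2 : ¬ (p'.2 = q.2 ∧ q'.2 = p.2) := by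
    rintro ⟨x, y⟩
    exact hne (by rw [det' p' e1 x, det q' e2 y, Sym2.eq_swap])
  by_cases hA : p.2 ≤ p'.2 ∧ q.2 ≤ p'.2 ∧ p.2 ≤ q'.2 ∧ q.2 ≤ q'.2
  · exact ⟨max p.2 q.2, Or.inl (by omega)⟩
  · by_cases hB : p'.2 ≤ p.2 ∧ q'.2 ≤ p.2 ∧ p'.2 ≤ q.2 ∧ q'.2 ≤ q.2
    · exact ⟨min p.2 q.2, Or.inr (by omega)⟩
    · exfalso
      omega

theorem par {u1 u2 v1 v2 w1 w2 : ℤ} (hu : u1 ≠ 0 ∨ u2 ≠ 0) (h1 : u1 * v2 - u2 * v1 = 0)
    (h2 : u1 * w2 - u2 * w1 = 0) : v1 * w2 - v2 * w1 = 0 := by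
  rcases hu with hu | hu
  · have : u1 * (v1 * w2 - v2 * w1) = 0 := by linear_combination v1 * h2 - w1 * h1
    rcases mul_eq_zero.1 this with h | h
    · exact absurd h hu
    · exact h
  · have : u2 * (v1 * w2 - v2 * w1) = 0 := by linear_combination v2 * h2 - w2 * h1
    rcases mul_eq_zero.1 this with h | h
    · exact absurd h hu
    · exact h

theorem ne_comp {p q : Pt} (h : p ≠ q) : q.1 - p.1 ≠ 0 ∨ q.2 - p.2 ≠ 0 := by
  by_contra hc
  push Not at hc
  exact h (Prod.ext (by omega) (by omega))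

/-- separated displaced segments do not cross -/
theorem sep_sp (hP : Par X Y N W) {p q p' q' : Pt} {a b a' b' : ℤ}
    (ht : ∃ t : ℤ, (p.2 ≤ t ∧ q.2 ≤ t ∧ t ≤ p'.2 ∧ t ≤ q'.2) ∨
      (t ≤ p.2 ∧ t ≤ q.2 ∧ p'.2 ≤ t ∧ q'.2 ≤ t))
    (hc : PCross (sp N p a) (sp N q b) (sp N p' a') (sp N q' b')) : False := by
  have hN : 0 ≤ N := by have := hP.N0; have := hP.Y0; omega
  obtain ⟨t, ⟨h1, h2, h3, h4⟩ | ⟨h1, h2, h3, h4⟩⟩ := ht
  · exact sep (t := N * t) hc (mul_le_mul_of_nonneg_left h1 hN) (mul_le_mul_of_nonneg_left h2 hN)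
      (mul_le_mul_of_nonneg_left h3 hN) (mul_le_mul_of_nonneg_left h4 hN)
  · exact sep' (t := N * t) hc (mul_le_mul_of_nonneg_left h1 hN) (mul_le_mul_of_nonneg_left h2 hN)
      (mul_le_mul_of_nonneg_left h3 hN) (mul_le_mul_of_nonneg_left h4 hN)

/-- common first endpoint, shifts 0 and 1 -/
theorem common (hP : Par X Y N W) (hL : Lft X Y W f Ts) {p q q' : Pt} {b b' : ℤ}
    (h : Rep W f Ts p q 0 b) (h' : Rep W f Ts p q' 1 b') (hqq : q ≠ q')
    (hc : PCross (sp N p 0) (sp N q b) (sp N p 1) (sp N q' b')) : False := by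
  have hN : 0 < N := by have := hP.N0; have := hP.Y0; omega
  have hc0 := hc
  obtain ⟨c1, c2⟩ := hc
  have d1 : dt (sp N p 0) (sp N q b) (sp N p 1) = -(N * (q.2 - p.2)) := by
    simp only [dt, sp]; ring
  have d3 : dt (sp N p 1) (sp N q' b') (sp N p 0) = N * (q'.2 - p.2) := by
    simp only [dt, sp]; ring
  rw [d1] at c1
  rw [d3] at c2
  have K' : dt p q' q = -dt p q q' := by simp only [dt]; ring
  have hpb := h.p_mem hL
  have hqb := h.q_mem hL
  have hqb' := h'.q_mem hL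
  have P2 := persist hP (Or.inl rfl) h.b01 h'.b01 hpb hqb hqb' (a := 0) (b := b) (c := b')
  have P4 := persist hP (Or.inr rfl) h'.b01 h.b01 hpb hqb' hqb (a := 1) (b := b') (c := b)
  obtain ⟨hpW, hT'⟩ := h'.a1 rfl
  have hT : ¬ ToRight (f p true) (f p false) (q - p) := by
    rcases h.a0 rfl with h | h
    · exact absurd hpW h
    · exact h
  have hup := hL.sel.up p hpW
  have hdn := hL.sel.down p hpW
  rcases lt_trichotomy (dt p q q') 0 with K | K | K
  · -- K < 0
    have f2 := P2.2 K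
    have f4 := P4.1 (by omega)
    have h2 : q.2 - p.2 < 0 := by
      by_contra hcon
      push Not at hcon
      have : 0 ≤ N * (q.2 - p.2) * (-dt (sp N p 0) (sp N q b) (sp N q' b')) :=
        mul_nonneg (mul_nonneg hN.le hcon) (by omega)
      linarith
    have h2' : q'.2 - p.2 < 0 := by
      by_contra hcon
      push Not at hcon
      have : 0 ≤ N * (q'.2 - p.2) * (dt (sp N p 1) (sp N q' b') (sp N q b)) :=
        mul_nonneg (mul_nonneg hN.le hcon) (by omega)
      linarith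
    have g1 : (f p false).1 * (q.2 - p.2) - (f p false).2 * (q.1 - p.1) ≤ 0 := by
      by_contra hcon
      push Not at hcon
      exact hT (Or.inr (Or.inl ⟨by simpa using h2, by simpa using hcon⟩))
    have g2 : 0 ≤ (f p false).1 * (q'.2 - p.2) - (f p false).2 * (q'.1 - p.1) := by
      rcases hT' with (⟨x, y⟩ | ⟨x, y⟩ | ⟨x, y⟩) | ⟨s, hs⟩
      · simp only [Prod.snd_sub] at x
        omega
      · simp only [Prod.snd_sub, Prod.fst_sub] at y
        omega
      · simp only [Prod.snd_sub] at x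
        omega
      · cases s
        · have e1 : q'.1 - p.1 = (f p false).1 := by rw [← hs]; rfl
          have e2 : q'.2 - p.2 = (f p false).2 := by rw [← hs]; rfl
          rw [e1, e2]
          linarith
        · have e2 : q'.2 - p.2 = (f p true).2 := by rw [← hs]; rfl
          omega
    have idn : (f p false).2 * dt p q q' =
        (q.2 - p.2) * ((f p false).1 * (q'.2 - p.2) - (f p false).2 * (q'.1 - p.1)) -
        (q'.2 - p.2) * ((f p false).1 * (q.2 - p.2) - (f p false).2 * (q.1 - p.1)) := by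
      simp only [dt]; ring
    have t1 : (q.2 - p.2) * ((f p false).1 * (q'.2 - p.2) - (f p false).2 * (q'.1 - p.1)) ≤ 0 :=
      mul_nonpos_of_nonpos_of_nonneg h2.le g2
    have t2 : 0 ≤ (q'.2 - p.2) * ((f p false).1 * (q.2 - p.2) - (f p false).2 * (q.1 - p.1)) :=
      mul_nonneg_of_nonpos_of_nonpos h2'.le g1
    have t3 : 0 < (f p false).2 * dt p q q' := mul_pos_of_neg_of_neg (by omega) K
    omega
  · -- K = 0
    have e1 : dt p q p = 0 := by simp only [dt]; ring
    have e3 : dt p q' p = 0 := by simp only [dt]; ring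
    refine sep_sp hP (heights hL h.mem h'.mem ?_ e1 K e3 (by omega)) hc0
    intro he
    rcases Sym2.eq_iff.1 he with ⟨_, x⟩ | ⟨x, y⟩
    · exact hqq x
    · exact h.ne hL y.symm
  · -- K > 0
    have f2 := P2.1 K
    have f4 := P4.2 (by omega)
    have h2 : 0 < q.2 - p.2 := by
      by_contra hcon
      push Not at hcon
      have : 0 ≤ N * (-(q.2 - p.2)) * (dt (sp N p 0) (sp N q b) (sp N q' b')) :=
        mul_nonneg (mul_nonneg hN.le (by omega)) (by omega)
      linarith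
    have h2' : 0 < q'.2 - p.2 := by
      by_contra hcon
      push Not at hcon
      have : 0 ≤ N * (-(q'.2 - p.2)) * (-dt (sp N p 1) (sp N q' b') (sp N q b)) :=
        mul_nonneg (mul_nonneg hN.le (by omega)) (by omega)
      linarith
    have g1 : 0 ≤ (f p true).1 * (q.2 - p.2) - (f p true).2 * (q.1 - p.1) := by
      by_contra hcon
      push Not at hcon
      exact hT (Or.inl ⟨by simpa using h2, by simpa using hcon⟩)
    have g2 : (f p true).1 * (q'.2 - p.2) - (f p true).2 * (q'.1 - p.1) ≤ 0 := by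
      rcases hT' with (⟨x, y⟩ | ⟨x, y⟩ | ⟨x, y⟩) | ⟨s, hs⟩
      · simp only [Prod.snd_sub, Prod.fst_sub] at y
        omega
      · simp only [Prod.snd_sub] at x
        omega
      · simp only [Prod.snd_sub] at x
        omega
      · cases s
        · have e2 : q'.2 - p.2 = (f p false).2 := by rw [← hs]; rfl
          omega
        · have e1 : q'.1 - p.1 = (f p true).1 := by rw [← hs]; rfl
          have e2 : q'.2 - p.2 = (f p true).2 := by rw [← hs]; rfl
          rw [e1, e2]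
          linarith
    have idn : (f p true).2 * dt p q q' =
        (q.2 - p.2) * ((f p true).1 * (q'.2 - p.2) - (f p true).2 * (q'.1 - p.1)) -
        (q'.2 - p.2) * ((f p true).1 * (q.2 - p.2) - (f p true).2 * (q.1 - p.1)) := by
      simp only [dt]; ring
    have t1 : (q.2 - p.2) * ((f p true).1 * (q'.2 - p.2) - (f p true).2 * (q'.1 - p.1)) ≤ 0 :=
      mul_nonpos_of_nonneg_of_nonpos h2.le g2
    have t2 : 0 ≤ (q'.2 - p.2) * ((f p true).1 * (q.2 - p.2) - (f p true).2 * (q.1 - p.1)) :=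
      mul_nonneg h2'.le g1
    have t3 : 0 < (f p true).2 * dt p q q' := mul_pos (by omega) K
    omega

/-- common first endpoint -/
theorem common_any (hP : Par X Y N W) (hL : Lft X Y W f Ts) {p q q' : Pt} {a b a' b' : ℤ}
    (h : Rep W f Ts p q a b) (h' : Rep W f Ts p q' a' b') (hqq : q ≠ q')
    (hc : PCross (sp N p a) (sp N q b) (sp N p a') (sp N q' b')) : False := by
  rcases h.a01 with rfl | rfl <;> rcases h'.a01 with rfl | rfl
  · exact shared hc
  · exact common hP hL h h' hqq hc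
  · exact common hP hL h' h hqq.symm (pc_swap2 hc)
  · exact shared hc

/-- the same coarse edge -/
theorem same {p q : Pt} {a b a' b' : ℤ}
    (h : Rep W f Ts p q a b) (h' : Rep W f Ts p q a' b')
    (hc : PCross (sp N p a) (sp N q b) (sp N p a') (sp N q b')) : False := by
  by_cases ha : a = a'
  · subst ha
    exact shared hc
  by_cases hb : b = b'
  · subst hb
    exact shared (pc_swap2 (pc_swap1 (pc_swap2 (pc_swap1 hc))))
  have hpW : p ∈ W := by
    rcases h.a01 with h1 | h1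
    · rcases h'.a01 with h2 | h2
      · omega
      · exact (h'.a1 h2).1
    · exact (h.a1 h1).1
  have hqW : q ∈ W := by
    rcases h.b01 with h1 | h1
    · rcases h'.b01 with h2 | h2
      · omega
      · exact (h'.b1 h2).1
    · exact (h.b1 h1).1
  exact ha ((h.dd hpW hqW).1.trans (h'.dd hpW hqW).1.symm)

/-- an endpoint on the line of the other edge, no common endpoint -/
theorem one (hP : Par X Y N W) (hL : Lft X Y W f Ts) {p q p' q' : Pt} {a b a' b' : ℤ}
    (h : Rep W f Ts p q a b) (h' : Rep W f Ts p' q' a' b') (hpp : p ≠ p')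
    (hqp : q ≠ p') (hne : s(p, q) ≠ s(p', q')) (D1 : dt p q p' = 0)
    (hc : PCross (sp N p a) (sp N q b) (sp N p' a') (sp N q' b')) : False := by
  have hu := ne_comp (h.ne hL)
  have hpb := h.p_mem hL
  have hqb := h.q_mem hL
  have hpb' := h'.p_mem hL
  have hqb' := h'.q_mem hL
  have E1 : (q.1 - p.1) * (p'.2 - p.2) - (q.2 - p.2) * (p'.1 - p.1) = 0 := D1
  by_cases D2 : dt p q q' = 0
  · have E2 : (q.1 - p.1) * (q'.2 - p.2) - (q.2 - p.2) * (q'.1 - p.1) = 0 := D2
    have F := par hu E1 E2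
    have D3 : dt p' q' p = 0 := by
      simp only [dt]
      linear_combination F
    have D4 : dt p' q' q = 0 := by
      simp only [dt]
      linear_combination F + E1 - E2
    exact sep_sp hP (heights hL h.mem h'.mem hne D1 D2 D3 D4) hc
  · have D3 : dt p' q' p ≠ 0 := by
      intro D3
      apply D2
      have E3 : (q'.1 - p'.1) * (p.2 - p'.2) - (q'.2 - p'.2) * (p.1 - p'.1) = 0 := D3
      have F := par (u1 := p'.1 - p.1) (u2 := p'.2 - p.2) (v1 := q.1 - p.1) (v2 := q.2 - p.2)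
        (w1 := q'.1 - p.1) (w2 := q'.2 - p.2) (ne_comp hpp) (by linear_combination -E1)
        (by linear_combination E3)
      simp only [dt]
      linear_combination F
    have D4 : dt p' q' q ≠ 0 := by
      intro D4
      apply D2
      have E4 : (q'.1 - p'.1) * (q.2 - p'.2) - (q'.2 - p'.2) * (q.1 - p'.1) = 0 := D4
      have F := par (u1 := p'.1 - q.1) (u2 := p'.2 - q.2) (v1 := p.1 - q.1) (v2 := p.2 - q.2)
        (w1 := q'.1 - q.1) (w2 := q'.2 - q.2) (ne_comp hqp) (by linear_combination E1)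
        (by linear_combination E4)
      simp only [dt]
      linear_combination -F
    have hlt := persist_mul hP h'.a01 h'.b01 h.a01 h.b01 hpb' hqb' hpb hqb D3 D4 hc.2
    have n := noin hL h.mem hpb' D1
    have i2 : dt p' q' p * (q.2 - p'.2) = dt p' q' q * (p.2 - p'.2) := by
      simp only [dt]
      linear_combination (-(q'.2 - p'.2)) * E1
    have i1 : dt p' q' p * (q.1 - p'.1) = dt p' q' q * (p.1 - p'.1) := by
      simp only [dt]
      linear_combination (-(q'.1 - p'.1)) * E1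
    have s2 : dt p' q' p ^ 2 * ((p.2 - p'.2) * (q.2 - p'.2)) =
        (dt p' q' p * dt p' q' q) * (p.2 - p'.2) ^ 2 := by
      linear_combination (dt p' q' p * (p.2 - p'.2)) * i2
    have s1 : dt p' q' p ^ 2 * ((p.1 - p'.1) * (q.1 - p'.1)) =
        (dt p' q' p * dt p' q' q) * (p.1 - p'.1) ^ 2 := by
      linear_combination (dt p' q' p * (p.1 - p'.1)) * i1
    have t2 : 0 ≤ (dt p' q' p * dt p' q' q) * (p.2 - p'.2) ^ 2 := by
      rw [← s2]
      exact mul_nonneg (sq_nonneg _) n.2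
    have t1 : 0 ≤ (dt p' q' p * dt p' q' q) * (p.1 - p'.1) ^ 2 := by
      rw [← s1]
      exact mul_nonneg (sq_nonneg _) n.1
    have z2 : (p.2 - p'.2) = 0 := by
      by_contra hz
      have := mul_neg_of_neg_of_pos hlt (pow_pos (abs_pos.2 hz) 2)
      rw [sq_abs] at this
      omega
    have z1 : (p.1 - p'.1) = 0 := by
      by_contra hz
      have := mul_neg_of_neg_of_pos hlt (pow_pos (abs_pos.2 hz) 2)
      rw [sq_abs] at this
      omega
    exact hpp (Prod.ext (by omega) (by omega))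

/-- no common endpoint -/
theorem disjointEnds (h3 : TaskG3) (hP : Par X Y N W) (hL : Lft X Y W f Ts) {p q p' q' : Pt}
    {a b a' b' : ℤ} (h : Rep W f Ts p q a b) (h' : Rep W f Ts p' q' a' b') (hpp : p ≠ p')
    (hpq : p ≠ q') (hqp : q ≠ p') (hqq : q ≠ q') (hne : s(p, q) ≠ s(p', q'))
    (hc : PCross (sp N p a) (sp N q b) (sp N p' a') (sp N q' b')) : False := by
  by_cases D1 : dt p q p' = 0
  · exact one hP hL h h' hpp hqp hne D1 hc
  by_cases D2 : dt p q q' = 0
  · refine one hP hL h h'.symm hpq hqq ?_ D2 (pc_swap3 hc)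
    rw [Sym2.eq_swap (a := q')]
    exact hne
  by_cases D3 : dt p' q' p = 0
  · exact one hP hL h' h hpp.symm hpq.symm hne.symm D3 (pc_swap2 hc)
  by_cases D4 : dt p' q' q = 0
  · refine one hP hL h' h.symm hqp.symm hqq.symm ?_ D4 (pc_swap3 (pc_swap2 hc))
    rw [Sym2.eq_swap (a := q)]
    exact hne.symm
  have m1 := persist_mul hP h.a01 h.b01 h'.a01 h'.b01 (h.p_mem hL) (h.q_mem hL) (h'.p_mem hL)
    (h'.q_mem hL) D1 D2 hc.1
  have m2 := persist_mul hP h'.a01 h'.b01 h.a01 h.b01 (h'.p_mem hL) (h'.q_mem hL) (h.p_mem hL)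
    (h.q_mem hL) D3 D4 hc.2
  exact h3 p q p' q' ⟨m1, m2⟩ (hL.tri.noncross p q p' q' h.mem h'.mem hne)

theorem rep_rep (h3 : TaskG3) (hP : Par X Y N W) (hL : Lft X Y W f Ts) {p q p' q' : Pt}
    {a b a' b' : ℤ} (h : Rep W f Ts p q a b) (h' : Rep W f Ts p' q' a' b')
    (hc : PCross (sp N p a) (sp N q b) (sp N p' a') (sp N q' b')) : False := by
  by_cases he : s(p, q) = s(p', q')
  · rcases Sym2.eq_iff.1 he with ⟨x, y⟩ | ⟨x, y⟩
    · subst x y
      exact same h h' hc
    · subst x y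
      exact same h h'.symm (pc_swap3 hc)
  by_cases e1 : p = p'
  · subst e1
    refine common_any hP hL h h' ?_ hc
    intro e
    exact he (by rw [e])
  by_cases e2 : p = q'
  · subst e2
    refine common_any hP hL h h'.symm ?_ (pc_swap3 hc)
    intro e
    exact he (by rw [e, Sym2.eq_swap])
  by_cases e3 : q = p'
  · subst e3
    refine common_any hP hL h.symm h' ?_ (pc_swap1 hc)
    intro e
    exact he (by rw [e, Sym2.eq_swap])
  by_cases e4 : q = q'
  · subst e4
    exact common_any hP hL h.symm h'.symm e1 (pc_swap3 (pc_swap1 hc))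
  exact disjointEnds h3 hP hL h h' e1 e2 e3 e4 he hc

end

/-- P2b -/
theorem p2b (h3 : TaskG3) : TaskP2b := by
  intro X Y N W f Ts hP hL P Q P' Q' hF hF' hc
  rcases fam_cases hL hF with ⟨w, hw, h1⟩ | ⟨p, q, a, b, R, rfl, rfl⟩
  · rcases fam_cases hL hF' with ⟨w', hw', h2⟩ | ⟨p', q', a', b', R', rfl, rfl⟩
    · rcases h1 with ⟨rfl, rfl⟩ | ⟨rfl, rfl⟩ <;> rcases h2 with ⟨rfl, rfl⟩ | ⟨rfl, rfl⟩
      · exact pair_pair hc
      · exact pair_pair (pc_swap3 hc)
      · exact pair_pair (pc_swap1 hc)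
      · exact pair_pair (pc_swap3 (pc_swap1 hc))
    · rcases h1 with ⟨rfl, rfl⟩ | ⟨rfl, rfl⟩
      · exact pair_rep hP hL hw R' hc
      · exact pair_rep hP hL hw R' (pc_swap1 hc)
  · rcases fam_cases hL hF' with ⟨w', hw', h2⟩ | ⟨p', q', a', b', R', rfl, rfl⟩
    · rcases h2 with ⟨rfl, rfl⟩ | ⟨rfl, rfl⟩
      · exact pair_rep hP hL hw' R (pc_swap2 hc)
      · exact pair_rep hP hL hw' R (pc_swap1 (pc_swap2 hc))
    · exact rep_rep h3 hP hL R R' hc

end Pool.Agent.H747.Q2P2b
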